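import Mathlib

/-!
There are no non-constant rational functions `z, t` with `t ^ 2 = z ^ 4 + 1`, and no non-constant
rational functions `x, y` with `y ^ 2 = x ^ 3 + x`.
-/

open Polynomial

namespace Pool.Agent.V1154.Bir

variable {F : Type*} [Field F]

lemma const_of_four (h2 : (2 : F) ≠ 0) {a b c : F[X]} (ha : a ≠ 0) (hb : b ≠ 0) (hc : c ≠ 0)
    (hab : IsCoprime a b) (h : a ^ 4 + b ^ 4 = c ^ 2) : a.natDegree = 0 ∧ b.natDegree = 0 := by
  have h4 : ((4 : ℕ) : F) ≠ 0 := by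
    have : ((4 : ℕ) : F) = 2 * 2 := by norm_num
    rw [this]
    exact mul_ne_zero h2 h2
  have h2' : ((2 : ℕ) : F) ≠ 0 := by simpa using h2
  have := Polynomial.flt_catalan (p := 4) (q := 4) (r := 2) (by norm_num) (by norm_num)
    (by norm_num) (by norm_num) h4 h4 h2' ha hb hc hab
    (one_ne_zero (α := F)) (one_ne_zero (α := F)) (neg_ne_zero.mpr (one_ne_zero (α := F)))
    (by simp only [map_one, map_neg]; linear_combination h)
  exact ⟨this.1, this.2.1⟩

lemma exists_poly_of_sq {t : RatFunc F} {p : F[X]} (h : t ^ 2 = algebraMap F[X] (RatFunc F) p) :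
    ∃ e : F[X], t = algebraMap F[X] (RatFunc F) e ∧ e ^ 2 = p := by
  have hint : IsIntegral F[X] t := by
    refine ⟨Polynomial.X ^ 2 - C p, monic_X_pow_sub_C p two_ne_zero, ?_⟩
    simp [h]
  obtain ⟨e, he⟩ := IsIntegrallyClosed.isIntegral_iff.mp hint
  refine ⟨e, he.symm, ?_⟩
  apply IsFractionRing.injective F[X] (RatFunc F)
  rw [map_pow, he, h]

lemma isConst_of_natDegree (z : RatFunc F) (h1 : z.num.natDegree = 0)
    (h2 : z.denom.natDegree = 0) : ∃ f : F, z = RatFunc.C f := by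
  obtain ⟨a, ha⟩ := Polynomial.natDegree_eq_zero.mp h1
  obtain ⟨b, hb⟩ := Polynomial.natDegree_eq_zero.mp h2
  refine ⟨a / b, ?_⟩
  rw [← RatFunc.num_div_denom z, ← ha, ← hb, RatFunc.algebraMap_C, RatFunc.algebraMap_C, map_div₀]

/-- `t ^ 2 = z ^ 4 + 1` has no non-constant solutions. -/
lemma quartic_const (h2 : (2 : F) ≠ 0) {z t : RatFunc F} (h : t ^ 2 = z ^ 4 + 1) :
    ∃ f : F, z = RatFunc.C f := by
  set a := z.num with ha
  set b := z.denom with hb
  have hb0 : b ≠ 0 := z.denom_ne_zero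
  have hB : algebraMap F[X] (RatFunc F) b ≠ 0 :=
    (map_ne_zero_iff _ (IsFractionRing.injective F[X] (RatFunc F))).mpr hb0
  have hz : z = algebraMap F[X] (RatFunc F) a / algebraMap F[X] (RatFunc F) b :=
    (RatFunc.num_div_denom z).symm
  have hco : IsCoprime a b := z.isCoprime_num_denom
  obtain ⟨c, -, hc⟩ := exists_poly_of_sq (t := t * algebraMap F[X] (RatFunc F) b ^ 2)
    (p := a ^ 4 + b ^ 4) (by
      rw [mul_pow, h, map_add, map_pow, map_pow, hz]
      field_simp)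
  by_cases ha0 : a = 0
  · exact ⟨0, by rw [hz, ha0, map_zero, zero_div, map_zero]⟩
  by_cases hc0 : c = 0
  · rw [hc0, zero_pow two_ne_zero] at hc
    have hd : b ∣ a ^ 4 := ⟨-b ^ 3, by linear_combination -hc⟩
    have hd' : a ∣ b ^ 4 := ⟨-a ^ 3, by linear_combination -hc⟩
    have hbu : IsUnit b := (hco.symm.pow_right (n := 4)).isUnit_of_dvd' dvd_rfl hd
    have hau : IsUnit a := (hco.pow_right (n := 4)).isUnit_of_dvd' dvd_rfl hd'
    exact isConst_of_natDegree z (natDegree_eq_zero_of_isUnit hau)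
      (natDegree_eq_zero_of_isUnit hbu)
  · obtain ⟨h3, h4⟩ := const_of_four h2 ha0 hb0 hc0 hco hc.symm
    exact isConst_of_natDegree z h3 h4

lemma exists_sq_of_coprime [IsAlgClosed F] {a b c : F[X]} (hab : IsCoprime a b)
    (h : a * b = c ^ 2) : ∃ d, a = d ^ 2 := by
  obtain ⟨d, u, hu⟩ := exists_associated_pow_of_mul_eq_pow' hab h
  obtain ⟨v, hv, hv'⟩ := Polynomial.isUnit_iff.mp u.isUnit
  obtain ⟨w, hw⟩ := IsAlgClosed.exists_pow_nat_eq v (n := 2) two_pos
  refine ⟨d * C w, ?_⟩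
  rw [← hu, ← hv', mul_pow, ← map_pow, hw]

/-- `y ^ 2 = x ^ 3 + x` has no non-constant solutions. -/
lemma cubic_const (h2 : (2 : F) ≠ 0) {x y : RatFunc F} (h : y ^ 2 = x ^ 3 + x) :
    ∃ f : F, x = RatFunc.C f := by
  set a := x.num with ha
  set b := x.denom with hb
  have hb0 : b ≠ 0 := x.denom_ne_zero
  have hB : algebraMap F[X] (RatFunc F) b ≠ 0 :=
    (map_ne_zero_iff _ (IsFractionRing.injective F[X] (RatFunc F))).mpr hb0
  have hx : x = algebraMap F[X] (RatFunc F) a / algebraMap F[X] (RatFunc F) b :=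
    (RatFunc.num_div_denom x).symm
  have hco : IsCoprime a b := x.isCoprime_num_denom
  obtain ⟨c, -, hc⟩ := exists_poly_of_sq (t := y * algebraMap F[X] (RatFunc F) b ^ 2)
    (p := a * b * (a ^ 2 + b ^ 2)) (by
      rw [mul_pow, h, map_mul, map_mul, map_add, map_pow, map_pow, hx]
      field_simp)
  by_cases ha0 : a = 0
  · exact ⟨0, by rw [hx, ha0, map_zero, zero_div, map_zero]⟩
  let K := AlgebraicClosure F
  let φ : F[X] →+* K[X] := mapRingHom (algebraMap F K)
  have hφ : Function.Injective φ := Polynomial.map_injective _ (algebraMap F K).injective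
  have hco' : IsCoprime (φ a) (φ b) := hco.map φ
  have hs : IsCoprime (φ a) (φ a ^ 2 + φ b ^ 2) := by
    have : IsCoprime (φ a) (φ b ^ 2) := hco'.pow_right
    have h3 := this.add_mul_left_right (φ a)
    have e : φ b ^ 2 + φ a * φ a = φ a ^ 2 + φ b ^ 2 := by ring
    rwa [e] at h3
  have hs' : IsCoprime (φ b) (φ a ^ 2 + φ b ^ 2) := by
    have : IsCoprime (φ b) (φ a ^ 2) := hco'.symm.pow_right
    have h3 := this.add_mul_left_right (φ b)
    have e : φ a ^ 2 + φ b * φ b = φ a ^ 2 + φ b ^ 2 := by ring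
    rwa [e] at h3
  have hc' : φ a * φ b * (φ a ^ 2 + φ b ^ 2) = φ c ^ 2 := by
    rw [← map_pow φ c, hc]
    simp only [map_mul, map_add, map_pow]
  obtain ⟨α, hα⟩ := exists_sq_of_coprime (a := φ a) (b := φ b * (φ a ^ 2 + φ b ^ 2)) (c := φ c)
    (hco'.mul_right hs) (by rw [← hc']; ring)
  obtain ⟨β, hβ⟩ := exists_sq_of_coprime (a := φ b) (b := φ a * (φ a ^ 2 + φ b ^ 2)) (c := φ c)
    (hco'.symm.mul_right hs') (by rw [← hc']; ring)
  obtain ⟨γ, hγ⟩ := exists_sq_of_coprime (a := φ a ^ 2 + φ b ^ 2) (b := φ a * φ b) (c := φ c)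
    (hs.symm.mul_right hs'.symm) (by rw [← hc']; ring)
  have h2' : (2 : K) ≠ 0 := by
    have := (map_ne_zero_iff (algebraMap F K) (algebraMap F K).injective).mpr h2
    rwa [map_ofNat] at this
  have hφa : φ a ≠ 0 := (map_ne_zero_iff φ hφ).mpr ha0
  have hφb : φ b ≠ 0 := (map_ne_zero_iff φ hφ).mpr hb0
  have hα0 : α ≠ 0 := by
    rintro rfl
    exact hφa (by rw [hα]; ring)
  have hβ0 : β ≠ 0 := by
    rintro rfl
    exact hφb (by rw [hβ]; ring)
  have hαβ : IsCoprime α β := by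
    rw [hα, hβ] at hco'
    exact (IsCoprime.pow_iff two_pos two_pos).mp hco'
  have hrel : α ^ 4 + β ^ 4 = γ ^ 2 := by
    rw [← hγ, hα, hβ]
    ring
  have hdeg : (φ a).natDegree = 0 ∧ (φ b).natDegree = 0 := by
    by_cases hγ0 : γ = 0
    · rw [hγ0, zero_pow two_ne_zero] at hrel
      have hd : β ∣ α ^ 4 := ⟨-β ^ 3, by linear_combination hrel⟩
      have hd' : α ∣ β ^ 4 := ⟨-α ^ 3, by linear_combination hrel⟩
      have hbu : IsUnit β := (hαβ.symm.pow_right (n := 4)).isUnit_of_dvd' dvd_rfl hd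
      have hau : IsUnit α := (hαβ.pow_right (n := 4)).isUnit_of_dvd' dvd_rfl hd'
      rw [hα, hβ]
      exact ⟨natDegree_eq_zero_of_isUnit (hau.pow 2), natDegree_eq_zero_of_isUnit (hbu.pow 2)⟩
    · obtain ⟨h3, h4⟩ := const_of_four h2' hα0 hβ0 hγ0 hαβ hrel
      rw [hα, hβ, natDegree_pow, natDegree_pow, h3, h4]
      simp
  have hda : a.natDegree = 0 := by
    rw [← hdeg.1]
    exact (Polynomial.natDegree_map_eq_of_injective (algebraMap F K).injective a).symm
  have hdb : b.natDegree = 0 := by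
    rw [← hdeg.2]
    exact (Polynomial.natDegree_map_eq_of_injective (algebraMap F K).injective b).symm
  exact isConst_of_natDegree x hda hdb

end Pool.Agent.V1154.Bir
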