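import Pool.Agent.V1154.Bir.Val
import Pool.Agent.V1154.Bir.Mason

/-!
The main argument in abstract form.
-/

open Polynomial

namespace Pool.Agent.V1154.Bir

lemma sq_const {F : Type*} [Field F] {y : RatFunc F} {c : F} (h : y ^ 2 = RatFunc.C c) :
    ∃ d : F, y = RatFunc.C d := by
  obtain ⟨e, he, he2⟩ := exists_poly_of_sq (t := y) (p := C c) (by rw [h, RatFunc.algebraMap_C])
  have hd : (e ^ 2).natDegree = 0 := by rw [he2, natDegree_C]
  rw [natDegree_pow] at hd
  have hd0 : e.natDegree = 0 := by omega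
  obtain ⟨d, hd'⟩ := Polynomial.natDegree_eq_zero.mp hd0
  exact ⟨d, by rw [he, ← hd', RatFunc.algebraMap_C]⟩

lemma parity {k : Type*} [Field k] {p p' : k[X]} (h : X * expand k 2 p' - expand k 2 p = 0) :
    p' = 0 := by
  ext n
  have h1 := congrArg (fun f => coeff f (2 * n + 1)) h
  simp only [coeff_sub, coeff_zero, coeff_X_mul] at h1
  rw [coeff_expand_mul' two_pos, coeff_expand two_pos, if_neg (by omega), sub_zero] at h1
  rw [h1, coeff_zero]

lemma notmem {k κ : Type*} [Field k] [Field κ] (j : k →+* κ) {z y : κ}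
    (hrel : y ^ 2 = (z ^ 2) ^ 3 + z ^ 2)
    (hind : ∀ a b : k[X], eval₂ j z a + eval₂ j z b * y = 0 → a = 0 ∧ b = 0) :
    z ∉ Subfield.closure (Set.range j ∪ {z ^ 2, y}) := by
  have hexp : ∀ p : k[X], eval₂ j (z ^ 2) p = eval₂ j z (expand k 2 p) := by
    intro p
    rw [expand_eq_comp_X_pow, eval₂_comp, eval₂_X_pow]
  have hring : ∀ s ∈ Subring.closure (Set.range j ∪ {z ^ 2, y}),
      ∃ p q : k[X], s = eval₂ j (z ^ 2) p + eval₂ j (z ^ 2) q * y := by
    intro s hs
    induction hs using Subring.closure_induction with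
    | mem s hs =>
      rcases hs with ⟨c, rfl⟩ | hs
      · exact ⟨C c, 0, by simp⟩
      · rcases hs with rfl | hs
        · exact ⟨X, 0, by simp⟩
        · rw [Set.mem_singleton_iff] at hs
          exact ⟨0, 1, by simp [hs]⟩
    | zero => exact ⟨0, 0, by simp⟩
    | one => exact ⟨1, 0, by simp⟩
    | add s t _ _ hs ht =>
      obtain ⟨p, q, rfl⟩ := hs
      obtain ⟨p', q', rfl⟩ := ht
      refine ⟨p + p', q + q', ?_⟩
      simp only [eval₂_add]
      ring
    | neg s _ hs =>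
      obtain ⟨p, q, rfl⟩ := hs
      refine ⟨-p, -q, ?_⟩
      simp only [eval₂_neg]
      ring
    | mul s t _ _ hs ht =>
      obtain ⟨p, q, rfl⟩ := hs
      obtain ⟨p', q', rfl⟩ := ht
      refine ⟨p * p' + q * q' * (X ^ 3 + X), p * q' + q * p', ?_⟩
      simp only [eval₂_add, eval₂_mul, eval₂_X_pow, eval₂_X]
      linear_combination (eval₂ j (z ^ 2) q * eval₂ j (z ^ 2) q') * hrel
  intro hz
  rw [Subfield.mem_closure_iff] at hz
  obtain ⟨n, hn, d, hd, hnd⟩ := hz
  obtain ⟨p, q, rfl⟩ := hring n hn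
  obtain ⟨p', q', rfl⟩ := hring d hd
  have hz0 : z ≠ 0 := by
    intro h0
    have := (hind X 0 (by simp [h0])).1
    exact X_ne_zero this
  have hd0 : eval₂ j (z ^ 2) p' + eval₂ j (z ^ 2) q' * y ≠ 0 := by
    intro h0
    rw [h0, div_zero] at hnd
    exact hz0 hnd.symm
  rw [div_eq_iff hd0] at hnd
  obtain ⟨h1, h2⟩ := hind (X * expand k 2 p' - expand k 2 p) (X * expand k 2 q' - expand k 2 q) (by
    simp only [eval₂_sub, eval₂_mul, eval₂_X, ← hexp]
    linear_combination -hnd)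
  have hp' := parity h1
  have hq' := parity h2
  apply hd0
  rw [hp', hq']
  simp

variable {k K F F₂ O : Type*} [Field k] [IsAlgClosed k] [Field K] [Algebra k[X] K] [Field F]
  [Algebra K F] [Field F₂] [Algebra k F₂] [CommRing O] [IsLocalRing O]

theorem core (h2 : (2 : k) ≠ 0) {x y : F} (hE : EllData K F x y) {x₂ y₂ : F₂}
    (hE₂ : EllData k F₂ x₂ y₂) (h2F : (2 : F) ≠ 0) (bk : k[X] →+* O) (Θ : O →+* RatFunc F)
    (hΘb : ∀ g : k[X], Θ (bk g) = RatFunc.C (algebraMap K F (algebraMap k[X] K g)))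
    (hnu : ∀ g : k[X], g.eval 0 = 0 → ¬ IsUnit (bk g))
    (Y Z V : O) (hrel : Y ^ 2 = (Z ^ 2 - bk X * V) ^ 3 + (Z ^ 2 - bk X * V))
    (hΘx : Θ (Z ^ 2 - bk X * V) = RatFunc.C x) (hΘy : Θ Y = RatFunc.C y)
    (hind : ∀ a b : k[X], ¬ IsUnit (eval₂ (bk.comp C) Z a + eval₂ (bk.comp C) Z b * Y) →
      a = 0 ∧ b = 0)
    (halg : ∀ a : K, ∃ P : Polynomial (Polynomial k), P ≠ 0 ∧ aeval a P = 0)
    (hne : algebraMap (Polynomial k) K X ≠ 0)
    (T : O →+* RatFunc F₂) (G : RatFunc F₂ →+* O) (hTG : ∀ m, T (G m) = m)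
    (hTb : ∀ g : k[X], T (bk g) = RatFunc.C (algebraMap k F₂ (g.eval 0)))
    (hGb : ∀ c : k, G (RatFunc.C (algebraMap k F₂ c)) = bk (C c)) : False := by
  obtain ⟨W, hW, hloc⟩ := IsLocalRing.exists_factor_valuationRing Θ
  let φ : O →+* W := Θ.codRestrict W.toSubring hW
  have hφloc : IsLocalHom φ := hloc
  have hφ : ∀ o, (φ o : RatFunc F) = Θ o := fun o => rfl
  let r : W →+* IsLocalRing.ResidueField W := IsLocalRing.residue W
  have hrloc : ∀ w : W, r w ≠ 0 → IsUnit w := fun w hw =>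
    (IsLocalRing.residue_ne_zero_iff_isUnit w).mp hw
  let rO : O →+* IsLocalRing.ResidueField W := r.comp φ
  have hrO : ∀ o, rO o ≠ 0 → IsUnit o := by
    intro o ho
    exact isUnit_of_map_unit φ o (hrloc _ ho)
  have hrO0 : ∀ o, ¬ IsUnit o → rO o = 0 := by
    intro o ho
    by_contra h
    exact ho (hrO o h)
  let j : k →+* IsLocalRing.ResidueField W := rO.comp (bk.comp C)
  have hj : ∀ g : k[X], rO (bk g) = j (g.eval 0) := by
    intro g
    have h1 : rO (bk (g - C (g.eval 0))) = 0 := hrO0 _ (hnu _ (by simp))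
    rw [map_sub, map_sub, sub_eq_zero] at h1
    exact h1
  have hmem : ∀ g : k[X], RatFunc.C (algebraMap K F (algebraMap k[X] K g)) ∈ W := by
    intro g
    rw [← hΘb]
    exact hW _
  have hV : ValData (K := K) (RatFunc.C : F →+* RatFunc F) W r j := by
    refine ⟨hrloc, halg, hne, hmem, ?_⟩
    intro g
    rw [← hj]
    change r _ = r (φ (bk g))
    congr 1
    apply Subtype.ext
    exact (hΘb g).symm
  have hx : (RatFunc.C x : RatFunc F) ∈ W := by
    rw [← hΘx]
    exact hW _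
  have hy : (RatFunc.C y : RatFunc F) ∈ W := by
    rw [← hΘy]
    exact hW _
  set zb := rO Z with hzb
  set yb := rO Y with hyb
  have hbX : rO (bk X) = 0 := hrO0 _ (hnu _ (by simp))
  have hrx : r ⟨_, hx⟩ = zb ^ 2 := by
    have h1 : (⟨_, hx⟩ : W) = φ (Z ^ 2 - bk X * V) := Subtype.ext hΘx.symm
    rw [h1]
    change rO _ = _
    rw [map_sub, map_pow, map_mul, hbX, zero_mul, sub_zero]
  have hry : r ⟨_, hy⟩ = yb := by
    have h1 : (⟨_, hy⟩ : W) = φ Y := Subtype.ext hΘy.symm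
    rw [h1]
    rfl
  have hind' : ∀ a b : k[X], eval₂ j zb a + eval₂ j zb b * yb = 0 → a = 0 ∧ b = 0 := by
    intro a b hab
    apply hind
    intro hu
    have h1 : rO (eval₂ (bk.comp C) Z a + eval₂ (bk.comp C) Z b * Y) = 0 := by
      rw [map_add, map_mul, Polynomial.hom_eval₂, Polynomial.hom_eval₂]
      exact hab
    exact (hu.map rO).ne_zero h1
  have hexp : ∀ p : k[X], eval₂ j (zb ^ 2) p = eval₂ j zb (expand k 2 p) := by
    intro p
    rw [expand_eq_comp_X_pow, eval₂_comp, eval₂_X_pow]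
  have hind2 : ∀ p q : Polynomial k, eval₂ j (r ⟨_, hx⟩) p +
      eval₂ j (r ⟨_, hx⟩) q * r ⟨_, hy⟩ = 0 → p = 0 ∧ q = 0 := by
    intro p q hpq
    rw [hrx, hry, hexp, hexp] at hpq
    obtain ⟨h1, h3⟩ := hind' _ _ hpq
    exact ⟨(expand_eq_zero two_pos).mp h1, (expand_eq_zero two_pos).mp h3⟩
  have hrelb : yb ^ 2 = (zb ^ 2) ^ 3 + zb ^ 2 := by
    have h1 := congrArg rO hrel
    simp only [map_pow, map_add, map_sub, map_mul, hbX, zero_mul, sub_zero] at h1
    exact h1
  set S := Subfield.closure (Set.range j ∪ {zb ^ 2, yb}) with hSdef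
  have hS : ∀ c, j c ∈ S := fun c => Subfield.subset_closure (Or.inl ⟨c, rfl⟩)
  have hxS : r ⟨_, hx⟩ ∈ S := by
    rw [hrx]
    exact Subfield.subset_closure (Or.inr (Or.inl rfl))
  have hyS : r ⟨_, hy⟩ ∈ S := by
    rw [hry]
    exact Subfield.subset_closure (Or.inr (Or.inr rfl))
  have hres : ∀ (f : F) (hf : RatFunc.C f ∈ W), r ⟨_, hf⟩ ∈ S := fun f hf =>
    hV.residue_mem hE hx hy hind2 S hS hxS hyS f hf
  -- the other side
  have hz0 : zb ≠ 0 := by
    intro h0
    have := (hind' X 0 (by simp [h0])).1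
    exact X_ne_zero this
  have hzG : zb = rO (G (T Z)) := by
    have h1 : ¬ IsUnit (Z - G (T Z)) := by
      intro hu
      have h3 := (hu.map T).ne_zero
      rw [map_sub, hTG, sub_self] at h3
      exact h3 rfl
    have h3 := hrO0 _ h1
    rw [map_sub, sub_eq_zero] at h3
    exact h3
  have hTZ0 : T Z ≠ 0 := by
    intro h0
    rw [h0, map_zero, map_zero] at hzG
    exact hz0 hzG
  have hTX : T (bk X) = 0 := by
    rw [hTb]
    simp
  have hTrel : (T Y) ^ 2 = ((T Z) ^ 2) ^ 3 + (T Z) ^ 2 := by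
    have h1 := congrArg T hrel
    simp only [map_pow, map_add, map_sub, map_mul, hTX, zero_mul, sub_zero] at h1
    exact h1
  have h2F₂ : (2 : F₂) ≠ 0 := by
    have := (_root_.map_ne_zero (algebraMap k F₂)).mpr h2
    rwa [map_ofNat] at this
  obtain ⟨f, hf⟩ := quartic_const h2F₂ (z := T Z) (t := T Y / T Z) (by
    rw [div_pow, hTrel]
    field_simp)
  let lam : F₂ →+* IsLocalRing.ResidueField W := (rO.comp G).comp RatFunc.C
  have hlamc : ∀ c : k, lam (algebraMap k F₂ c) = j c := by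
    intro c
    change rO (G (RatFunc.C (algebraMap k F₂ c))) = _
    rw [hGb]
    rfl
  have hΘrel : Θ (G (RatFunc.C y₂)) ^ 2 = Θ (G (RatFunc.C x₂)) ^ 3 + Θ (G (RatFunc.C x₂)) := by
    rw [← map_pow, ← map_pow, ← map_pow, ← map_pow, ← map_pow, ← map_pow, ← map_add, ← map_add,
      ← map_add, hE₂.sq]
  obtain ⟨fX, hfX⟩ := cubic_const h2F hΘrel
  obtain ⟨fY, hfY⟩ := sq_const (y := Θ (G (RatFunc.C y₂))) (c := fX ^ 3 + fX) (by
    rw [hΘrel, hfX, map_add, map_pow])
  have hlam : ∀ (m : F₂) (a : F), Θ (G (RatFunc.C m)) = RatFunc.C a → lam m ∈ S := by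
    intro m a hma
    have h1 : RatFunc.C a ∈ W := by
      rw [← hma]
      exact hW _
    have h3 := hres a h1
    have h4 : (⟨_, h1⟩ : W) = φ (G (RatFunc.C m)) := Subtype.ext hma.symm
    rw [h4] at h3
    exact h3
  have hlx := hlam x₂ fX hfX
  have hly := hlam y₂ fY hfY
  have hlp : ∀ p : k[X], lam (aeval x₂ p) ∈ S := by
    intro p
    induction p using Polynomial.induction_on with
    | C a =>
      rw [aeval_C, hlamc]
      exact hS a
    | add p q h3 h4 =>
      rw [map_add, map_add]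
      exact S.add_mem h3 h4
    | monomial n a _ =>
      rw [map_mul, map_pow, aeval_C, aeval_X, map_mul, map_pow, hlamc]
      exact S.mul_mem (hS a) (S.pow_mem hlx _)
  have hlf : lam f ∈ S := by
    obtain ⟨p, q, p', q', hne', hfe⟩ := hE₂.rep f
    rw [eq_div_of_mul_eq hne' hfe, map_div₀, map_add, map_add, map_mul, map_mul]
    exact S.div_mem (S.add_mem (hlp p) (S.mul_mem (hlp q) hly))
      (S.add_mem (hlp p') (S.mul_mem (hlp q') hly))
  have hzS : zb ∈ S := by
    rw [hzG, hf]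
    exact hlf
  exact notmem j hrelb hind' hzS

end Pool.Agent.V1154.Bir
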