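import Mathlib

/-!
Projective families over the affine line, their affine charts, and birational trivializations.
-/

open MvPolynomial

universe u

namespace Pool.Agent.V1154.Bir

/-- Dehomogenization: the last coordinate `x_t` is set equal to one, and the coefficients are
mapped by `g`. -/
noncomputable def dehom {R A : Type*} [CommRing R] [CommRing A] (g : R →+* A) (t : ℕ) :
    MvPolynomial (Fin (t + 1)) R →+* MvPolynomial (Fin t) A :=
  eval₂Hom (C.comp g) (Fin.snoc (α := fun _ => MvPolynomial (Fin t) A) (fun i => X i) 1)

/-- Let `I` be a homogeneous ideal of `R[x_0, ..., x_t]`, which defines a closed subscheme of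
projective `t`-space over `R`. This is the coordinate ring of the affine chart `x_t ≠ 0` of its
base change along `g`. -/
abbrev Chart {R A : Type*} [CommRing R] [CommRing A] (g : R →+* A) {t : ℕ}
    (I : Ideal (MvPolynomial (Fin (t + 1)) R)) : Type _ :=
  MvPolynomial (Fin t) A ⧸ I.map (dehom g t)

lemma map_comp_dehom {R A A' : Type*} [CommRing R] [CommRing A] [CommRing A'] {g : R →+* A}
    (h : A →+* A') {g' : R →+* A'} (H : h.comp g = g') (t : ℕ) :
    (MvPolynomial.map h).comp (dehom g t) = dehom g' t := by
  apply MvPolynomial.ringHom_ext
  · intro a
    simp [dehom, ← H]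
  · intro i
    refine Fin.lastCases ?_ (fun j => ?_) i <;> simp [dehom]

/-- The map of affine charts given by a ring homomorphism `h` of the base rings. -/
noncomputable def Chart.map {R A A' : Type*} [CommRing R] [CommRing A] [CommRing A']
    {g : R →+* A} (h : A →+* A') {g' : R →+* A'} (H : h.comp g = g') {t : ℕ}
    (I : Ideal (MvPolynomial (Fin (t + 1)) R)) : Chart g I →+* Chart g' I :=
  Ideal.quotientMap _ (MvPolynomial.map h) (by
    rw [Ideal.map_le_iff_le_comap, Ideal.comap_comap, map_comp_dehom h H t]
    exact Ideal.le_comap_map)

/-- Let `A` be the coordinate ring of an affine variety `B'`, let `β : A → k` be a point of `B'`,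
and let `X'` be the projective scheme over `B'` obtained from `I` by base change along `g`. This
is the localization of the chart of `X'` at all elements whose restriction to the fibre over `β`
is not a zero-divisor. If this fibre is integral and not contained in the hyperplane `x_t = 0`,
this is the local ring of `X'` at the generic point of the fibre over `β`. -/
abbrev FibreLocal {R A k : Type*} [CommRing R] [CommRing A] [CommRing k] {g : R →+* A}
    (β : A →+* k) {g' : R →+* k} (H : β.comp g = g') {t : ℕ}
    (I : Ideal (MvPolynomial (Fin (t + 1)) R)) : Type _ :=
  Localization ((nonZeroDivisors (Chart g' I)).comap (Chart.map β H I))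

/-- The structure map of the local ring over the coordinate ring of `B'`. -/
noncomputable def FibreLocal.base {R A k : Type*} [CommRing R] [CommRing A] [CommRing k]
    {g : R →+* A} (β : A →+* k) {g' : R →+* k} (H : β.comp g = g') {t : ℕ}
    (I : Ideal (MvPolynomial (Fin (t + 1)) R)) : A →+* FibreLocal β H I :=
  (algebraMap (Chart g I) (FibreLocal β H I)).comp
    ((Ideal.Quotient.mk (I.map (dehom g t))).comp C)

/-- A family as in the problem, over the affine line with coordinate ring `k[u]`: the closed
subscheme of the product of the affine line and projective `t`-space given by a homogeneous ideal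
`I` of `k[u][x_0, ..., x_t]` is flat over the line, all its fibres are integral (and not contained
in the hyperplane `x_t = 0`), and all its fibres are birational to one another. -/
structure IsFamily {k : Type u} [Field k] {t : ℕ}
    (I : Ideal (MvPolynomial (Fin (t + 1)) (Polynomial k))) : Prop where
  homogeneous : ∃ S : Set (MvPolynomial (Fin (t + 1)) (Polynomial k)),
    (∀ F ∈ S, ∃ n, F.IsHomogeneous n) ∧ I = Ideal.span S
  flat : Module.Flat (Polynomial k) (MvPolynomial (Fin (t + 1)) (Polynomial k) ⧸ I)
  prime : ∀ b : k, (I.map (MvPolynomial.map (Polynomial.evalRingHom b))).IsPrime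
  chart : ∀ b : k, X (Fin.last t) ∉ I.map (MvPolynomial.map (Polynomial.evalRingHom b))
  birational : ∀ b c : k, Nonempty (FractionRing (Chart (Polynomial.evalRingHom b) I) ≃ₐ[k]
    FractionRing (Chart (Polynomial.evalRingHom c) I))

/-- `J` defines a projective variety in projective `s`-space over `k`, not contained in the
hyperplane `y_s = 0`. -/
structure IsProjVariety {k : Type u} [Field k] {s : ℕ}
    (J : Ideal (MvPolynomial (Fin (s + 1)) k)) : Prop where
  homogeneous : ∃ S : Set (MvPolynomial (Fin (s + 1)) k),
    (∀ F ∈ S, ∃ n, F.IsHomogeneous n) ∧ J = Ideal.span S
  prime : J.IsPrime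
  chart : X (Fin.last s) ∉ J

/-- The function field of the projective variety defined by `J`. -/
abbrev ProjFunctionField {k : Type u} [Field k] {s : ℕ} (J : Ideal (MvPolynomial (Fin (s + 1)) k)) :
    Type u :=
  FractionRing (Chart (RingHom.id k) J)

/-- `J` defines a projective variety that is birational to all fibres of the family given by
`I`. -/
def IsModel {k : Type u} [Field k] {t s : ℕ}
    (I : Ideal (MvPolynomial (Fin (t + 1)) (Polynomial k)))
    (J : Ideal (MvPolynomial (Fin (s + 1)) k)) : Prop :=
  IsProjVariety J ∧ ∀ b : k, Nonempty (ProjFunctionField J ≃ₐ[k]
    FractionRing (Chart (Polynomial.evalRingHom b) I))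

/-- An irreducible affine variety `B'` (the spectrum of the domain `A`) with a finite surjective
morphism to an open subset `f ≠ 0` of the affine line. -/
structure Cover (k : Type u) [Field k] where
  f : Polynomial k
  A : Type u
  [commRing : CommRing A]
  [isDomain : IsDomain A]
  [algebra : Algebra (Localization.Away f) A]
  [finite : Module.Finite (Localization.Away f) A]
  injective : Function.Injective (algebraMap (Localization.Away f) A)

attribute [instance] Cover.commRing Cover.isDomain Cover.algebra Cover.finite

/-- The ring homomorphism `k[u] → A` that corresponds to the morphism from `B'` to the line. -/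
noncomputable def Cover.str {k : Type u} [Field k] (c : Cover k) : Polynomial k →+* c.A :=
  (algebraMap (Localization.Away c.f) c.A).comp (algebraMap (Polynomial k) (Localization.Away c.f))

lemma comp_C {k A : Type*} [Field k] [CommRing A] {g : Polynomial k →+* A} {β : A →+* k} {b : k}
    (h : β.comp g = Polynomial.evalRingHom b) :
    β.comp (g.comp Polynomial.C) = RingHom.id k := by
  rw [← RingHom.comp_assoc, h]
  ext x
  simp

/-- The family given by `I` has a birational trivialization at the point `b` of the affine line,
with the projective variety given by `J` as model of the fibres. There are an irreducible variety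
`B'` with a finite surjective morphism to an open set `U` and a point `b'` of `B'` over `b` (the
homomorphism `β`; so `U` contains `b`), such that the local ring of `X ×_B B'` at the generic
point of its fibre over `b'` and the local ring of `B' × X_0` at the generic point of
`{b'} × X_0` are isomorphic over `B'`. -/
def HasTrivialization {k : Type u} [Field k] {t s : ℕ}
    (I : Ideal (MvPolynomial (Fin (t + 1)) (Polynomial k)))
    (J : Ideal (MvPolynomial (Fin (s + 1)) k)) (b : k) : Prop :=
  ∃ (c : Cover k) (β : c.A →+* k) (h : β.comp c.str = Polynomial.evalRingHom b)
    (e : FibreLocal β h I ≃+* FibreLocal β (comp_C h) J),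
    ∀ a : c.A, e (FibreLocal.base β h I a) = FibreLocal.base β (comp_C h) J a

end Pool.Agent.V1154.Bir
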