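import Pool.Agent.V1154.Bir.Surf

/-!
The coordinate ring and the function field of the curve `y ^ 2 = x ^ 3 + x`, and kernels of
homomorphisms from `A[y, z, w]`.
-/

open Polynomial

namespace Pool.Agent.V1154.Bir

lemma quad_div {B : Type*} [CommRing B] [Nontrivial B] (g : B) (P : B[X]) :
    ∃ (Q : B[X]) (a b : B), P = (X ^ 2 - C g) * Q + (C a + C b * X) := by
  have hm : (X ^ 2 - C g : B[X]).Monic := monic_X_pow_sub_C g two_ne_zero
  have hd : (P %ₘ (X ^ 2 - C g)).natDegree ≤ 1 := by
    have h1 : (P %ₘ (X ^ 2 - C g)).natDegree < (X ^ 2 - C g : B[X]).natDegree := by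
      apply natDegree_modByMonic_lt P hm
      intro h
      have := natDegree_X_pow_sub_C (n := 2) (r := g)
      rw [h] at this
      simp at this
    rw [natDegree_X_pow_sub_C] at h1
    omega
  obtain ⟨b, a, hab⟩ := exists_eq_X_add_C_of_natDegree_le_one hd
  refine ⟨P /ₘ (X ^ 2 - C g), a, b, ?_⟩
  have := modByMonic_add_div P (X ^ 2 - C g)
  rw [hab] at this
  linear_combination -this

section CE

variable (K : Type*) [Field K]

/-- The polynomial `x ^ 3 + x`. -/
noncomputable def gE : K[X] := X ^ 3 + X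

/-- The coordinate ring of `y ^ 2 = x ^ 3 + x`. -/
abbrev CE : Type _ := AdjoinRoot (X ^ 2 - C (gE K) : K[X][X])

lemma prime_CE : Prime (X ^ 2 - C (gE K) : K[X][X]) :=
  prime_monic (fun r s h => sq_aux0 (x := 0) (by simp [gE]) (by simp [gE]) h)

instance : IsDomain (CE K) := AdjoinRoot.isDomain_of_prime (prime_CE K)

/-- The function field of `y ^ 2 = x ^ 3 + x`. -/
abbrev FE : Type _ := FractionRing (CE K)

/-- The coordinate `x`. -/
noncomputable def xE : CE K := AdjoinRoot.of _ X

/-- The coordinate `y`. -/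
noncomputable def yE : CE K := AdjoinRoot.root _

lemma yE_sq : yE K ^ 2 = xE K ^ 3 + xE K := by
  have h : AdjoinRoot.mk (X ^ 2 - C (gE K) : K[X][X]) (X ^ 2 - C (gE K)) = 0 :=
    AdjoinRoot.mk_self
  rw [map_sub, map_pow, AdjoinRoot.mk_X, AdjoinRoot.mk_C, sub_eq_zero] at h
  have h2 : AdjoinRoot.of (X ^ 2 - C (gE K) : K[X][X]) (gE K) = xE K ^ 3 + xE K := by
    conv_lhs => arg 2; rw [gE]
    rw [map_add, map_pow]
    rfl
  rw [← h2, ← h]
  rfl

lemma CE_rep (e : CE K) : ∃ p q : K[X], e = AdjoinRoot.of _ p + AdjoinRoot.of _ q * yE K := by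
  obtain ⟨P, rfl⟩ := AdjoinRoot.mk_surjective e
  obtain ⟨Q, a, b, h⟩ := quad_div (gE K) P
  refine ⟨a, b, ?_⟩
  rw [h, map_add, map_mul, AdjoinRoot.mk_self, zero_mul, zero_add, map_add, map_mul,
    AdjoinRoot.mk_C, AdjoinRoot.mk_C, AdjoinRoot.mk_X]
  rfl

lemma CE_indep {p q : K[X]} (h : (AdjoinRoot.of _ p + AdjoinRoot.of _ q * yE K : CE K) = 0) :
    p = 0 ∧ q = 0 := by
  have h1 : AdjoinRoot.mk (X ^ 2 - C (gE K) : K[X][X]) (C p + C q * X) = 0 := by
    rw [map_add, map_mul, AdjoinRoot.mk_C, AdjoinRoot.mk_C, AdjoinRoot.mk_X]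
    exact h
  rw [AdjoinRoot.mk_eq_zero] at h1
  have h0 : (C p + C q * X : K[X][X]) = 0 := by
    by_contra hne
    refine (monic_X_pow_sub_C (gE K) two_ne_zero).not_dvd_of_natDegree_lt hne ?_ h1
    rw [natDegree_X_pow_sub_C]
    have : (C p + C q * X : K[X][X]).natDegree ≤ 1 := by
      compute_degree
    omega
  have c0 := congrArg (fun f => coeff f 0) h0
  have c1 := congrArg (fun f => coeff f 1) h0
  simp at c0 c1
  exact ⟨c0, c1⟩

/-- The coordinate `x` in the function field. -/
noncomputable def xF : FE K := algebraMap (CE K) (FE K) (xE K)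

/-- The coordinate `y` in the function field. -/
noncomputable def yF : FE K := algebraMap (CE K) (FE K) (yE K)

lemma yF_sq : yF K ^ 2 = xF K ^ 3 + xF K := by
  rw [xF, yF, ← map_pow, yE_sq, map_add, map_pow]

lemma of_eq_aeval (p : K[X]) :
    algebraMap (CE K) (FE K) (AdjoinRoot.of _ p) = aeval (xF K) p := by
  have : ((algebraMap (CE K) (FE K)).comp (AdjoinRoot.of _)) =
      ((aeval (xF K) : K[X] →ₐ[K] FE K) : K[X] →+* FE K) := by
    apply Polynomial.ringHom_ext
    · intro a
      simp only [RingHom.comp_apply, RingHom.coe_coe, aeval_C]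
      rw [IsScalarTower.algebraMap_apply K (CE K) (FE K)]
      rfl
    · simp only [RingHom.comp_apply, RingHom.coe_coe, aeval_X]
      rfl
  exact congrArg (fun f : K[X] →+* FE K => f p) this

lemma FE_rep (f : FE K) : ∃ p q p' q' : K[X],
    aeval (xF K) p' + aeval (xF K) q' * yF K ≠ 0 ∧
    f * (aeval (xF K) p' + aeval (xF K) q' * yF K) = aeval (xF K) p + aeval (xF K) q * yF K := by
  obtain ⟨a, b, hb, rfl⟩ := IsFractionRing.div_surjective (A := CE K) f
  obtain ⟨p, q, rfl⟩ := CE_rep K a
  obtain ⟨p', q', rfl⟩ := CE_rep K b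
  have hb0 := nonZeroDivisors.ne_zero hb
  have hb1 : algebraMap (CE K) (FE K) (AdjoinRoot.of _ p' + AdjoinRoot.of _ q' * yE K) ≠ 0 :=
    (map_ne_zero_iff _ (IsFractionRing.injective (CE K) (FE K))).mpr hb0
  have e1 : ∀ p q : K[X], algebraMap (CE K) (FE K) (AdjoinRoot.of _ p + AdjoinRoot.of _ q * yE K) =
      aeval (xF K) p + aeval (xF K) q * yF K := by
    intro p q
    rw [map_add, map_mul, of_eq_aeval, of_eq_aeval]
    rfl
  refine ⟨p, q, p', q', ?_, ?_⟩
  · rw [← e1]
    exact hb1
  · rw [← e1, ← e1, div_mul_cancel₀ _ hb1]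

lemma FE_indep {p q : K[X]} (h : aeval (xF K) p + aeval (xF K) q * yF K = 0) :
    p = 0 ∧ q = 0 := by
  apply CE_indep K
  apply IsFractionRing.injective (CE K) (FE K)
  rw [map_zero, map_add, map_mul, of_eq_aeval, of_eq_aeval]
  exact h

lemma FE_transc {p : K[X]} (h : aeval (xF K) p = 0) : p = 0 :=
  (FE_indep K (p := p) (q := 0) (by simpa using h)).1

end CE

/-- The field `F` is the function field of the curve `y ^ 2 = x ^ 3 + x` over `K`. -/
structure EllData (K F : Type*) [Field K] [Field F] [Algebra K F] (x y : F) : Prop where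
  sq : y ^ 2 = x ^ 3 + x
  rep : ∀ f : F, ∃ p q p' q' : K[X], aeval x p' + aeval x q' * y ≠ 0 ∧
    f * (aeval x p' + aeval x q' * y) = aeval x p + aeval x q * y
  indep : ∀ p q : K[X], aeval x p + aeval x q * y = 0 → p = 0 ∧ q = 0

lemma EllData.transc {K F : Type*} [Field K] [Field F] [Algebra K F] {x y : F}
    (h : EllData K F x y) {p : K[X]} (hp : aeval x p = 0) : p = 0 :=
  (h.indep p 0 (by simpa using hp)).1

lemma ellData_FE (K : Type*) [Field K] : EllData K (FE K) (xF K) (yF K) where
  sq := yF_sq K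
  rep := FE_rep K
  indep := fun _ _ h => FE_indep K h

section indep

variable {K F : Type*} [Field K] [Field F] [Algebra K F]

lemma indep1 {x : F} (hx : ∀ p : K[X], aeval x p = 0 → p = 0) {a : MvPolynomial (Fin 2) K}
    (ha : MvPolynomial.eval₂Hom ((RatFunc.C : F →+* RatFunc F).comp (algebraMap K F))
      ![RatFunc.X, RatFunc.C x] a = 0) : a = 0 := by
  let χ : MvPolynomial (Fin 1) K →+* F := ((MvPolynomial.aeval fun _ => x : MvPolynomial (Fin 1) K →ₐ[K] F) :
    MvPolynomial (Fin 1) K →+* F)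
  have hχ : Function.Injective χ := by
    have : AlgebraicIndependent K (fun _ : Fin 1 => x) := by
      rw [algebraicIndependent_unique_type_iff]
      rw [transcendental_iff]
      exact hx
    exact this
  let Ψ : MvPolynomial (Fin 2) K →+* RatFunc F :=
    ((algebraMap F[X] (RatFunc F)).comp (mapRingHom χ)).comp
      (MvPolynomial.finSuccEquiv K 1 : MvPolynomial (Fin 2) K →+* Polynomial _)
  have hΨ : MvPolynomial.eval₂Hom ((RatFunc.C : F →+* RatFunc F).comp (algebraMap K F))
      ![RatFunc.X, RatFunc.C x] = Ψ := by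
    apply MvPolynomial.ringHom_ext
    · intro c
      simp [Ψ, χ, MvPolynomial.finSuccEquiv_apply]
    · intro j
      fin_cases j
      · simp [Ψ, MvPolynomial.finSuccEquiv_X_zero]
      · have e1 : MvPolynomial.finSuccEquiv K 1 (MvPolynomial.X 1) =
            Polynomial.C (MvPolynomial.X 0) := MvPolynomial.finSuccEquiv_X_succ (j := 0)
        simp [Ψ, χ, e1]
  rw [hΨ] at ha
  have h1 : Function.Injective Ψ := by
    refine ((IsFractionRing.injective F[X] (RatFunc F)).comp
      (Polynomial.map_injective _ hχ)).comp ?_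
    exact (MvPolynomial.finSuccEquiv K 1).injective
  exact h1 (by rw [ha, map_zero])

lemma indep2 {x : F} (hx : ∀ p : K[X], aeval x p = 0 → p = 0) {a : MvPolynomial (Fin 2) K}
    (ha : MvPolynomial.eval₂Hom ((RatFunc.C : F →+* RatFunc F).comp (algebraMap K F))
      ![RatFunc.C x, RatFunc.X] a = 0) : a = 0 := by
  have h1 : MvPolynomial.rename (Equiv.swap (0 : Fin 2) 1) a = 0 := by
    apply indep1 hx
    have : (MvPolynomial.eval₂Hom ((RatFunc.C : F →+* RatFunc F).comp (algebraMap K F))
      ![RatFunc.X, RatFunc.C x]).comp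
      (MvPolynomial.rename (Equiv.swap (0 : Fin 2) 1) : _ →ₐ[K] MvPolynomial (Fin 2) K).toRingHom =
      MvPolynomial.eval₂Hom ((RatFunc.C : F →+* RatFunc F).comp (algebraMap K F))
      ![RatFunc.C x, RatFunc.X] := by
      apply MvPolynomial.ringHom_ext
      · intro c
        simp
      · intro j
        fin_cases j <;> simp
    rw [← this] at ha
    exact ha
  exact MvPolynomial.rename_injective _ (Equiv.injective _) (by rw [h1, map_zero])

end indep

section kernel

open MvPolynomial

variable {A : Type*} [CommRing A]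

lemma fse_rename (n : ℕ) (a : MvPolynomial (Fin n) A) :
    finSuccEquiv A n (rename Fin.succ a) = Polynomial.C a := by
  have : ((finSuccEquiv A n : MvPolynomial (Fin (n + 1)) A →+* Polynomial _).comp
      (rename Fin.succ : _ →ₐ[A] MvPolynomial (Fin (n + 1)) A).toRingHom) = Polynomial.C := by
    apply MvPolynomial.ringHom_ext
    · intro c
      simp [finSuccEquiv_apply]
    · intro j
      simp [finSuccEquiv_X_succ]
  exact congrArg (fun f : MvPolynomial (Fin n) A →+* Polynomial (MvPolynomial (Fin n) A) => f a)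
    this

lemma smallPhi_eq (u : A) : smallPhi u = X 0 ^ 2 - rename Fin.succ (gSmall u) := by
  have h1 : (Fin.succ (0 : Fin 2)) = (1 : Fin 3) := rfl
  have h2 : (Fin.succ (1 : Fin 2)) = (2 : Fin 3) := rfl
  simp [smallPhi, gSmall, h1, h2]
  ring

lemma kernel_small [IsDomain A] (h2 : (2 : A) ≠ 0) (u : A) {M : Type*} [CommRing M] [IsDomain M]
    (φ : MvPolynomial (Fin 3) A →+* M) (h0 : φ (smallPhi u) = 0)
    (hinj : ∀ a : MvPolynomial (Fin 2) A, φ (rename Fin.succ a) = 0 → a = 0)
    {P : MvPolynomial (Fin 3) A} (hP : φ P = 0) : smallPhi u ∣ P := by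
  obtain ⟨Q, a, b, hQ⟩ := quad_div (gSmall u) (finSuccEquiv A 2 P)
  have hX0 : finSuccEquiv A 2 (X 0) = Polynomial.X := finSuccEquiv_X_zero
  have hPeq : P = smallPhi u * (finSuccEquiv A 2).symm Q +
      (rename Fin.succ a + rename Fin.succ b * X 0) := by
    apply (finSuccEquiv A 2).injective
    rw [map_add, map_mul, map_add, map_mul, AlgEquiv.apply_symm_apply, fse_small, fse_rename,
      fse_rename, hX0]
    exact hQ
  have h3 : φ (rename Fin.succ a) + φ (rename Fin.succ b) * φ (X 0) = 0 := by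
    rw [hPeq, map_add, map_mul, h0, zero_mul, zero_add, map_add, map_mul] at hP
    exact hP
  have h4 : φ (X 0) ^ 2 = φ (rename Fin.succ (gSmall u)) := by
    rw [smallPhi_eq, map_sub, map_pow] at h0
    exact sub_eq_zero.mp h0
  have h5 : a ^ 2 - gSmall u * b ^ 2 = 0 := by
    apply hinj
    simp only [map_sub, map_mul, map_pow]
    rw [← h4]
    linear_combination (φ (rename Fin.succ a) - φ (rename Fin.succ b) * φ (X 0)) * h3
  have hb : b = 0 := gSmall_nonsq h2 u b a (by linear_combination -h5)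
  have ha : a = 0 := by
    rw [hb] at h5
    apply pow_eq_zero_iff two_ne_zero |>.mp
    linear_combination h5
  rw [hPeq, ha, hb]
  simp

end kernel

end Pool.Agent.V1154.Bir
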