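import Pool.Agent.V1154.Bir.Ell
import Pool.Agent.V1154.Bir.Defs

/-!
The family `y ^ 2 h ^ 4 = (z ^ 2 - u w h) ^ 3 + (z ^ 2 - u w h) h ^ 4` over the affine line.
-/

open MvPolynomial

universe u

namespace Pool.Agent.V1154.Bir

lemma dehom_bigPhi {R A : Type*} [CommRing R] [CommRing A] (g : R →+* A) (u : R) :
    dehom g 3 (bigPhi u) = smallPhi (g u) := by
  have e0 : dehom g 3 (X 0) = X 0 := by
    rw [dehom, eval₂Hom_X']
    exact Fin.snoc_castSucc (α := fun _ => MvPolynomial (Fin 3) A) 1 (fun i => X i) (0 : Fin 3)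
  have e1 : dehom g 3 (X 1) = X 1 := by
    rw [dehom, eval₂Hom_X']
    exact Fin.snoc_castSucc (α := fun _ => MvPolynomial (Fin 3) A) 1 (fun i => X i) (1 : Fin 3)
  have e2 : dehom g 3 (X 2) = X 2 := by
    rw [dehom, eval₂Hom_X']
    exact Fin.snoc_castSucc (α := fun _ => MvPolynomial (Fin 3) A) 1 (fun i => X i) (2 : Fin 3)
  have e3 : dehom g 3 (X 3) = 1 := by
    rw [dehom, eval₂Hom_X']
    exact Fin.snoc_last (α := fun _ => MvPolynomial (Fin 3) A) 1 (fun i => X i)
  have eC : dehom g 3 (C u) = C (g u) := by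
    rw [dehom, eval₂Hom_C]
    rfl
  unfold bigPhi smallPhi
  simp only [map_sub, map_mul, map_pow, e0, e1, e2, e3, eC]
  ring

section param

variable {A K F : Type*} [CommRing A] [Field K] [Field F] [Algebra A K] [Algebra K F]

/-- `y ↦ y`, `z ↦ T`, `w ↦ (T ^ 2 - x) / u`. -/
noncomputable def paramHom (u : A) (x y : F) : MvPolynomial (Fin 3) A →+* RatFunc F :=
  eval₂Hom (((RatFunc.C : F →+* RatFunc F).comp (algebraMap K F)).comp (algebraMap A K))
    ![RatFunc.C y, RatFunc.X,
      (RatFunc.X ^ 2 - RatFunc.C x) / RatFunc.C (algebraMap K F (algebraMap A K u))]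

lemma paramHom_phi {u : A} (hu : algebraMap A K u ≠ 0) {x y : F} (hxy : y ^ 2 = x ^ 3 + x) :
    paramHom (K := K) u x y (smallPhi u) = 0 := by
  have hu' : (RatFunc.C (algebraMap K F (algebraMap A K u)) : RatFunc F) ≠ 0 :=
    (map_ne_zero_iff _ RatFunc.C_injective).mpr ((map_ne_zero_iff _ (algebraMap K F).injective).mpr hu)
  have h1 : (RatFunc.C (algebraMap K F (algebraMap A K u)) : RatFunc F) *
      ((RatFunc.X ^ 2 - RatFunc.C x) / RatFunc.C (algebraMap K F (algebraMap A K u))) =
      RatFunc.X ^ 2 - RatFunc.C x := mul_div_cancel₀ _ hu'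
  have h2 : (RatFunc.C y : RatFunc F) ^ 2 = RatFunc.C x ^ 3 + RatFunc.C x := by
    rw [← map_pow, hxy, map_add, map_pow]
  unfold paramHom smallPhi
  simp only [map_sub, map_mul, map_pow, eval₂Hom_X', eval₂Hom_C, RingHom.comp_apply,
    Matrix.cons_val_zero, Matrix.cons_val_one, Matrix.cons_val]
  rw [h1, h2]
  ring

lemma param_kernel [IsDomain A] (h2 : (2 : A) ≠ 0) (hAK : Function.Injective (algebraMap A K))
    {u : A} (hu : u ≠ 0) {x y : F} (hx : ∀ p : Polynomial K, Polynomial.aeval x p = 0 → p = 0)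
    (hxy : y ^ 2 = x ^ 3 + x) {P : MvPolynomial (Fin 3) A}
    (hP : paramHom (K := K) u x y P = 0) : smallPhi u ∣ P := by
  have huK : algebraMap A K u ≠ 0 := (map_ne_zero_iff _ hAK).mpr hu
  have hu' : (RatFunc.C (algebraMap K F (algebraMap A K u)) : RatFunc F) ≠ 0 :=
    (map_ne_zero_iff _ RatFunc.C_injective).mpr
      ((map_ne_zero_iff _ (algebraMap K F).injective).mpr huK)
  refine kernel_small h2 u (paramHom (K := K) u x y) (paramHom_phi huK hxy) ?_ hP
  intro a ha
  let σ : MvPolynomial (Fin 2) K →+* MvPolynomial (Fin 2) K :=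
    eval₂Hom C ![X 0, C (algebraMap A K u)⁻¹ * (X 0 ^ 2 - X 1)]
  let τ : MvPolynomial (Fin 2) K →+* MvPolynomial (Fin 2) K :=
    eval₂Hom C ![X 0, X 0 ^ 2 - C (algebraMap A K u) * X 1]
  have hτσ : τ.comp σ = RingHom.id _ := by
    apply MvPolynomial.ringHom_ext
    · intro c
      simp [σ, τ]
    · intro j
      fin_cases j
      · simp [σ, τ]
      · simp only [σ, τ, RingHom.comp_apply, eval₂Hom_X', Fin.mk_one, Matrix.cons_val_one,
          Matrix.cons_val_fin_one, map_mul, map_sub, map_pow, eval₂Hom_C, Matrix.cons_val_zero,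
          RingHom.id_apply, sub_sub_cancel]
        rw [← mul_assoc, ← C_mul, inv_mul_cancel₀ huK, C_1, one_mul]
  have hcomp : (eval₂Hom ((RatFunc.C : F →+* RatFunc F).comp (algebraMap K F))
      ![RatFunc.X, RatFunc.C x]).comp (σ.comp (MvPolynomial.map (algebraMap A K))) =
      (paramHom (K := K) u x y).comp (rename Fin.succ : _ →ₐ[A] MvPolynomial (Fin 3) A).toRingHom := by
    apply MvPolynomial.ringHom_ext
    · intro c
      simp [σ, paramHom]
    · intro j
      fin_cases j
      · simp [σ, paramHom]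
      · have e2 : Fin.succ (1 : Fin 2) = (2 : Fin 3) := rfl
        simp [σ, paramHom, e2]
        rw [div_eq_inv_mul]
  have h3 : σ (MvPolynomial.map (algebraMap A K) a) = 0 := by
    apply indep1 hx
    exact (congrArg (fun f : MvPolynomial (Fin 2) A →+* RatFunc F => f a) hcomp).trans ha
  have h4 : MvPolynomial.map (algebraMap A K) a = 0 := by
    have := congrArg (fun f : MvPolynomial (Fin 2) K →+* MvPolynomial (Fin 2) K =>
      f (MvPolynomial.map (algebraMap A K) a)) hτσ
    simp only [RingHom.comp_apply, RingHom.id_apply] at this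
    rw [← this, h3, map_zero]
  exact MvPolynomial.map_injective _ hAK (by rw [h4, map_zero])

end param

lemma algclosed_const {k F : Type*} [Field k] [IsAlgClosed k] [Field F] [Algebra k F] {z : F}
    {p : Polynomial k} (hp : p ≠ 0) (h : Polynomial.aeval z p = 0) :
    ∃ c : k, algebraMap k F c = z := by
  have hz : IsIntegral k z := (show IsAlgebraic k z from ⟨p, hp, h⟩).isIntegral
  have := IsAlgClosed.degree_eq_one_of_irreducible k (minpoly.irreducible hz)
  exact minpoly.mem_range_of_degree_eq_one k z this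

section top

variable {K F : Type*} [Field K] [Field F] [Algebra K F] {x y : F}

lemma ME_top (hE : EllData K F x y) (S : Subfield (RatFunc F))
    (h1 : ∀ a : K, (RatFunc.C (algebraMap K F a) : RatFunc F) ∈ S)
    (hx : (RatFunc.C x : RatFunc F) ∈ S) (hy : (RatFunc.C y : RatFunc F) ∈ S)
    (hX : (RatFunc.X : RatFunc F) ∈ S) (m : RatFunc F) : m ∈ S := by
  have hp : ∀ p : Polynomial K, (RatFunc.C (Polynomial.aeval x p) : RatFunc F) ∈ S := by
    intro p
    induction p using Polynomial.induction_on with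
    | C a =>
      rw [Polynomial.aeval_C]
      exact h1 a
    | add p q h3 h4 =>
      rw [map_add, map_add]
      exact S.add_mem h3 h4
    | monomial n a _ =>
      rw [map_mul, map_pow, Polynomial.aeval_C, Polynomial.aeval_X, map_mul, map_pow]
      exact S.mul_mem (h1 a) (S.pow_mem hx _)
  have hf : ∀ f : F, (RatFunc.C f : RatFunc F) ∈ S := by
    intro f
    obtain ⟨p, q, p', q', hne, hf⟩ := hE.rep f
    rw [eq_div_of_mul_eq hne hf, map_div₀, map_add, map_add, map_mul, map_mul]
    exact S.div_mem (S.add_mem (hp p) (S.mul_mem (hp q) hy))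
      (S.add_mem (hp p') (S.mul_mem (hp q') hy))
  have hP : ∀ P : Polynomial F, algebraMap _ (RatFunc F) P ∈ S := by
    intro P
    induction P using Polynomial.induction_on with
    | C a =>
      rw [RatFunc.algebraMap_C]
      exact hf a
    | add p q h3 h4 =>
      rw [map_add]
      exact S.add_mem h3 h4
    | monomial n a _ =>
      rw [map_mul, map_pow, RatFunc.algebraMap_C, RatFunc.algebraMap_X]
      exact S.mul_mem (hf a) (S.pow_mem hX _)
  rw [← RatFunc.num_div_denom m]
  exact S.div_mem (hP _) (hP _)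

lemma algebraMap_ME (a : K) : algebraMap K (RatFunc F) a = RatFunc.C (algebraMap K F a) := by
  rw [IsScalarTower.algebraMap_apply K F (RatFunc F)]
  rfl

lemma frac_iso {k R M : Type*} [Field k] [CommRing R] [IsDomain R] [Algebra k R] [Field M]
    [Algebra k M] (φ : R →ₐ[k] M) (hφ : Function.Injective φ)
    (htop : ∀ S : Subfield M, (∀ a : R, φ a ∈ S) → ∀ m, m ∈ S) :
    Nonempty (FractionRing R ≃ₐ[k] M) := by
  let ψ : FractionRing R →ₐ[k] M := IsFractionRing.liftAlgHom (g := φ) hφ
  have hψ : ∀ P, ψ (algebraMap R _ P) = φ P := fun P => IsFractionRing.lift_algebraMap hφ P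
  have hsurj : Function.Surjective ψ := by
    intro m
    exact htop (ψ : FractionRing R →+* M).fieldRange (fun a => ⟨algebraMap _ _ a, hψ a⟩) m
  exact ⟨AlgEquiv.ofBijective ψ ⟨ψ.toRingHom.injective, hsurj⟩⟩

end top

section fibres

/-- The family. -/
noncomputable def fam (k : Type u) [Field k] : Ideal (MvPolynomial (Fin 4) (Polynomial k)) :=
  Ideal.span {bigPhi Polynomial.X}

lemma map_fam {k : Type u} [Field k] {A : Type*} [CommRing A] (g : Polynomial k →+* A) :
    (fam k).map (dehom g 3) = Ideal.span {smallPhi (g Polynomial.X)} := by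
  rw [fam, Ideal.map_span, Set.image_singleton, dehom_bigPhi]

variable {k : Type u} [Field k] {F : Type*} [Field F] [Algebra k F] {x y : F}

/-- The general construction of the isomorphism of the function field of the fibre over `b`. -/
lemma fibre_iso (hE : EllData k F x y) (h2 : (2 : k) ≠ 0) (b : k) (v : Fin 3 → RatFunc F)
    (hv : aeval v (smallPhi b) = 0)
    (hker : ∀ P : MvPolynomial (Fin 3) k, aeval v P = 0 → smallPhi b ∣ P)
    (htop : ∀ S : Subfield (RatFunc F), (∀ a : k, algebraMap k _ a ∈ S) → (∀ i, v i ∈ S) →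
      (RatFunc.C x : RatFunc F) ∈ S ∧ (RatFunc.C y : RatFunc F) ∈ S ∧
      (RatFunc.X : RatFunc F) ∈ S) :
    Nonempty (FractionRing (Chart (Polynomial.evalRingHom b) (fam k)) ≃ₐ[k] RatFunc F) := by
  have hI : (fam k).map (dehom (Polynomial.evalRingHom b) 3) = Ideal.span {smallPhi b} := by
    rw [map_fam]
    simp
  have hprime : ((fam k).map (dehom (Polynomial.evalRingHom b) 3)).IsPrime := by
    rw [hI, Ideal.span_singleton_prime (prime_small h2 b).ne_zero]
    exact prime_small h2 b
  have hlift : ∀ a ∈ (fam k).map (dehom (Polynomial.evalRingHom b) 3), aeval v a = 0 := by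
    intro a ha
    rw [hI, Ideal.mem_span_singleton] at ha
    obtain ⟨c, rfl⟩ := ha
    rw [map_mul, hv, zero_mul]
  let φ : Chart (Polynomial.evalRingHom b) (fam k) →ₐ[k] RatFunc F :=
    Ideal.Quotient.liftₐ _ (aeval v) hlift
  have hφmk : ∀ P, φ (Ideal.Quotient.mk _ P) = aeval v P := fun P => rfl
  have hφ : Function.Injective φ := by
    rw [injective_iff_map_eq_zero]
    intro a ha
    obtain ⟨P, rfl⟩ := Ideal.Quotient.mk_surjective a
    rw [Ideal.Quotient.eq_zero_iff_mem, hI, Ideal.mem_span_singleton]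
    exact hker P ha
  refine frac_iso φ hφ ?_
  intro S hS
  have h1 : ∀ a : k, algebraMap k (RatFunc F) a ∈ S := by
    intro a
    have := hS (Ideal.Quotient.mk _ (C a))
    rw [hφmk, aeval_C] at this
    exact this
  have h3 : ∀ i, v i ∈ S := by
    intro i
    have := hS (Ideal.Quotient.mk _ (X i))
    rw [hφmk, aeval_X] at this
    exact this
  obtain ⟨h4, h5, h6⟩ := htop S h1 h3
  exact ME_top hE S (fun a => by rw [← algebraMap_ME]; exact h1 a) h4 h5 h6

lemma fibre_iso_ne (hE : EllData k F x y) (h2 : (2 : k) ≠ 0) {b : k} (hb : b ≠ 0) :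
    Nonempty (FractionRing (Chart (Polynomial.evalRingHom b) (fam k)) ≃ₐ[k] RatFunc F) := by
  have hb' : (RatFunc.C (algebraMap k F b) : RatFunc F) ≠ 0 :=
    (map_ne_zero_iff _ RatFunc.C_injective).mpr
      ((map_ne_zero_iff _ (algebraMap k F).injective).mpr hb)
  have hAK : algebraMap k k b ≠ 0 := hb
  have key : ∀ P : MvPolynomial (Fin 3) k,
      aeval ![RatFunc.C y, RatFunc.X,
        (RatFunc.X ^ 2 - RatFunc.C x) / RatFunc.C (algebraMap k F b)] P =
      paramHom (K := k) b x y P := by
    intro P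
    rw [paramHom, aeval_def, coe_eval₂Hom]
    congr 1
  refine fibre_iso hE h2 b ![RatFunc.C y, RatFunc.X,
    (RatFunc.X ^ 2 - RatFunc.C x) / RatFunc.C (algebraMap k F b)] ?_ ?_ ?_
  · exact (key _).trans (paramHom_phi hAK hE.sq)
  · intro P hP
    exact param_kernel (K := k) h2 (fun _ _ h => h) hb (fun p => hE.transc) hE.sq
      ((key P).symm.trans hP)
  · intro S hS hv
    have hy := hv 0
    have hX := hv 1
    have hw := hv 2
    simp only [Matrix.cons_val_zero, Matrix.cons_val_one, Matrix.cons_val] at hy hX hw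
    refine ⟨?_, hy, hX⟩
    have e1 : (RatFunc.C x : RatFunc F) = RatFunc.X ^ 2 -
        algebraMap k (RatFunc F) b *
        ((RatFunc.X ^ 2 - RatFunc.C x) / RatFunc.C (algebraMap k F b)) := by
      rw [algebraMap_ME, mul_div_cancel₀ _ hb']
      ring
    rw [e1]
    exact S.sub_mem (S.pow_mem hX 2) (S.mul_mem (hS b) hw)

/-- The fibre over zero. -/
lemma fibre_iso_zero [IsAlgClosed k] (hE : EllData k F x y) (h2 : (2 : k) ≠ 0) :
    Nonempty (FractionRing (Chart (Polynomial.evalRingHom 0) (fam k)) ≃ₐ[k] RatFunc F) := by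
  obtain ⟨i, hi⟩ := IsAlgClosed.exists_pow_nat_eq (-1 : k) (n := 2) two_pos
  set j : F := algebraMap k F i with hj
  have hj2 : j ^ 2 = -1 := by rw [hj, ← map_pow, hi, map_neg, map_one]
  have h2F : (2 : F) ≠ 0 := by
    have := (map_ne_zero_iff (algebraMap k F) (algebraMap k F).injective).mpr h2
    rwa [map_ofNat] at this
  have hx0 : x ≠ 0 := by
    intro h0
    have := hE.transc (p := Polynomial.X) (by simpa using h0)
    exact Polynomial.X_ne_zero this
  have hy0 : y ≠ 0 := by
    intro h0
    have := (hE.indep 0 1 (by simpa using h0)).2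
    exact one_ne_zero this
  -- the functions `z` and `t` on the curve
  set z : F := (1 + j) / 2 * (y / x) with hz
  set t : F := j / 2 * (x - x⁻¹) with ht
  have hj1 : 1 + j ≠ 0 := by
    intro h0
    have e : j = -1 := by linear_combination h0
    rw [e] at hj2
    apply h2F
    linear_combination hj2
  have hz0 : z ≠ 0 := mul_ne_zero (div_ne_zero hj1 h2F) (div_ne_zero hy0 hx0)
  have hyx : (y / x) ^ 2 = x + x⁻¹ := by
    rw [div_pow, hE.sq]
    field_simp
  have hz2 : z ^ 2 = j / 2 * (x + x⁻¹) := by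
    rw [hz, mul_pow, hyx]
    have e : ((1 + j) / 2) ^ 2 = j / 2 := by
      field_simp
      linear_combination hj2
    rw [e]
  have ht2 : t ^ 2 = z ^ 4 + 1 := by
    have e1 : z ^ 4 = (z ^ 2) ^ 2 := by ring
    have e2 : x * x⁻¹ = 1 := mul_inv_cancel₀ hx0
    rw [e1, hz2, ht]
    field_simp
    linear_combination (-4 * x ^ 2) * hj2
  have hzt : ∀ p : Polynomial k, Polynomial.aeval z p = 0 → p = 0 := by
    intro p hp
    by_contra hp0
    obtain ⟨c, hc⟩ := algclosed_const hp0 hp
    -- then `y` is a constant multiple of `x`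
    have hy' : y = algebraMap k F (c * 2 * (1 + i)⁻¹) * x := by
      rw [map_mul, map_mul, map_inv₀, map_add, map_one, map_ofNat, hc, ← hj, hz]
      field_simp
    have := (hE.indep (-(Polynomial.C (c * 2 * (1 + i)⁻¹) * Polynomial.X)) 1 (by
      rw [map_neg, map_mul, Polynomial.aeval_C, Polynomial.aeval_X, map_one, one_mul]
      linear_combination hy')).2
    exact one_ne_zero this
  have hv : aeval ![RatFunc.C (z * t), RatFunc.C z, (RatFunc.X : RatFunc F)]
      (smallPhi (0 : k)) = 0 := by
    unfold smallPhi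
    simp only [map_sub, map_mul, map_pow, aeval_X, aeval_C, Matrix.cons_val_zero,
      Matrix.cons_val_one, map_zero, zero_mul, sub_zero]
    have : z ^ 2 * t ^ 2 - (z ^ 2) ^ 3 - z ^ 2 = 0 := by
      rw [ht2]
      ring
    have e : (RatFunc.C (z ^ 2 * t ^ 2 - (z ^ 2) ^ 3 - z ^ 2) : RatFunc F) = 0 := by
      rw [this, map_zero]
    rw [map_sub, map_sub, map_mul, map_pow, map_pow, map_pow, map_pow] at e
    linear_combination e
  refine fibre_iso hE h2 0 _ hv ?_ ?_
  · intro P hP
    refine kernel_small h2 0 ((aeval ![RatFunc.C (z * t), RatFunc.C z, (RatFunc.X : RatFunc F)] :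
      MvPolynomial (Fin 3) k →ₐ[k] RatFunc F) : MvPolynomial (Fin 3) k →+* RatFunc F) hv ?_ hP
    intro a ha
    apply indep2 hzt
    have : ((aeval ![RatFunc.C (z * t), RatFunc.C z, (RatFunc.X : RatFunc F)] :
      MvPolynomial (Fin 3) k →ₐ[k] RatFunc F) : MvPolynomial (Fin 3) k →+* RatFunc F).comp
      (rename Fin.succ : _ →ₐ[k] MvPolynomial (Fin 3) k).toRingHom =
      eval₂Hom ((RatFunc.C : F →+* RatFunc F).comp (algebraMap k F))
      ![RatFunc.C z, RatFunc.X] := by
      apply MvPolynomial.ringHom_ext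
      · intro c
        simp [algebraMap_ME]
      · intro l
        fin_cases l <;> simp
    rw [← this]
    exact ha
  · intro S hS hv
    have h1 := hv 0
    have h3 := hv 1
    have h4 := hv 2
    simp only [Matrix.cons_val_zero, Matrix.cons_val_one, Matrix.cons_val] at h1 h3 h4
    have hzS : (RatFunc.C z : RatFunc F) ≠ 0 := (map_ne_zero_iff _ RatFunc.C_injective).mpr hz0
    have htS : (RatFunc.C t : RatFunc F) ∈ S := by
      have e : (RatFunc.C t : RatFunc F) = RatFunc.C (z * t) / RatFunc.C z :=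
        eq_div_of_mul_eq hzS (by rw [← RingHom.map_mul, mul_comm])
      rw [e]
      exact S.div_mem h1 h3
    have hxe : x = -j * (z ^ 2 + t) := by
      have e : z ^ 2 + t = j * x := by
        rw [hz2, ht]
        field_simp
        ring
      rw [e]
      linear_combination x * hj2
    have hye : y = (1 - j) * (z * x) := by
      have e : z * x * 2 = (1 + j) * y := by
        rw [hz]
        field_simp
      have e3 : y * 2 = (1 - j) * (z * x) * 2 := by
        linear_combination (-(1 - j)) * e + y * hj2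
      exact mul_right_cancel₀ h2F e3
    have hxS : (RatFunc.C x : RatFunc F) ∈ S := by
      rw [hxe, map_mul, map_add, map_pow, map_neg, hj, ← algebraMap_ME]
      exact S.mul_mem (S.neg_mem (hS i)) (S.add_mem (S.pow_mem h3 2) htS)
    refine ⟨hxS, ?_, h4⟩
    rw [hye, map_mul, map_mul, map_sub, map_one, hj, ← algebraMap_ME]
    exact S.mul_mem (S.sub_mem S.one_mem (hS i)) (S.mul_mem h3 hxS)

/-- Every fibre of the family is birational to the product of the curve and a line. -/
lemma fibre_iso_all [IsAlgClosed k] (hE : EllData k F x y) (h2 : (2 : k) ≠ 0) (b : k) :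
    Nonempty (FractionRing (Chart (Polynomial.evalRingHom b) (fam k)) ≃ₐ[k] RatFunc F) := by
  by_cases hb : b = 0
  · subst hb
    exact fibre_iso_zero hE h2
  · exact fibre_iso_ne hE h2 hb

end fibres

section family

variable (k : Type u) [Field k]

lemma two_poly (h2 : (2 : k) ≠ 0) : (2 : Polynomial k) ≠ 0 := by
  have := (map_ne_zero_iff (Polynomial.C : k →+* Polynomial k) Polynomial.C_injective).mpr h2
  rwa [map_ofNat] at this

lemma bigPhi_homog {R : Type*} [CommRing R] (u : R) : (bigPhi u).IsHomogeneous 6 := by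
  unfold bigPhi
  have h1 : (X 1 ^ 2 - C u * X 2 * X 3 : MvPolynomial (Fin 4) R).IsHomogeneous 2 := by
    refine (isHomogeneous_X_pow 1 2).sub ?_
    have := ((isHomogeneous_C (Fin 4) u).mul (isHomogeneous_X R (2 : Fin 4))).mul
      (isHomogeneous_X R (3 : Fin 4))
    simpa using this
  refine (((isHomogeneous_X_pow 0 2).mul (isHomogeneous_X_pow 3 4)).sub ?_).sub ?_
  · exact h1.pow 3
  · exact h1.mul (isHomogeneous_X_pow 3 4)

lemma map_bigPhi {R S : Type*} [CommRing R] [CommRing S] (g : R →+* S) (u : R) :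
    MvPolynomial.map g (bigPhi u) = bigPhi (g u) := by
  simp [bigPhi]

lemma isFamily_fam [IsAlgClosed k] (h2 : (2 : k) ≠ 0) : IsFamily (t := 3) (fam k) where
  homogeneous := ⟨{bigPhi Polynomial.X}, by
    rintro F rfl
    exact ⟨6, bigPhi_homog _⟩, rfl⟩
  flat := by
    have hprime : (fam k).IsPrime := by
      rw [fam, Ideal.span_singleton_prime (prime_big (two_poly k h2) _).ne_zero]
      exact prime_big (two_poly k h2) _
    have : Module.IsTorsionFree (Polynomial k) (MvPolynomial (Fin 4) (Polynomial k) ⧸ fam k) := by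
      rw [Module.isTorsionFree_iff_algebraMap_injective, injective_iff_map_eq_zero]
      intro a ha
      have ha' : (C a : MvPolynomial (Fin 4) (Polynomial k)) ∈ fam k :=
        Ideal.Quotient.eq_zero_iff_mem.mp ha
      rw [fam, Ideal.mem_span_singleton] at ha'
      obtain ⟨c, hc⟩ := ha'
      have := congrArg (eval ![(0 : Polynomial k), 0, 0, 1]) hc
      simpa [bigPhi] using this
    infer_instance
  prime := by
    intro b
    rw [fam, Ideal.map_span, Set.image_singleton, map_bigPhi]
    rw [Ideal.span_singleton_prime (prime_big h2 _).ne_zero]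
    exact prime_big h2 _
  chart := by
    intro b hb
    rw [fam, Ideal.map_span, Set.image_singleton, map_bigPhi, Ideal.mem_span_singleton] at hb
    obtain ⟨c, hc⟩ := hb
    have h3 : (Fin.last 3) = (3 : Fin 4) := rfl
    rw [h3] at hc
    have := congrArg (eval ![(0 : k), 0, 0, 1]) hc
    simp [bigPhi] at this
  birational := by
    intro b c
    obtain ⟨e1⟩ := fibre_iso_all (ellData_FE k) h2 b
    obtain ⟨e2⟩ := fibre_iso_all (ellData_FE k) h2 c
    exact ⟨e1.trans e2.symm⟩

end family

end Pool.Agent.V1154.Bir
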