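import Pool.Agent.V1154.Bir.Defs

/-!
Basic properties of the local ring at the generic point of a fibre.
-/

open MvPolynomial

namespace Pool.Agent.V1154.Bir

section abs

variable {C₁ C₀ O : Type*} [CommRing C₁] [CommRing C₀] [CommRing O] [Algebra C₁ O]
  (sp : C₁ →+* C₀) [IsLocalization ((nonZeroDivisors C₀).comap sp) O]

include sp in
lemma abs_isUnit_iff_and_local [IsDomain C₀] :
    IsLocalRing O ∧ ∀ c : C₁, IsUnit (algebraMap C₁ O c) ↔ sp c ≠ 0 := by
  have hp : (RingHom.ker sp).IsPrime := RingHom.ker_isPrime sp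
  have hS : (nonZeroDivisors C₀).comap sp = (RingHom.ker sp).primeCompl := by
    ext c
    rw [Submonoid.mem_comap, mem_nonZeroDivisors_iff_ne_zero, Ideal.mem_primeCompl_iff,
      RingHom.mem_ker]
  have hAt : IsLocalization.AtPrime O (RingHom.ker sp) := by
    unfold IsLocalization.AtPrime
    rw [← hS]
    infer_instance
  refine ⟨IsLocalization.AtPrime.isLocalRing O (RingHom.ker sp), fun c => ?_⟩
  rw [IsLocalization.AtPrime.isUnit_to_map_iff O (RingHom.ker sp), Ideal.mem_primeCompl_iff,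
    RingHom.mem_ker]

variable {L : Type*} [CommRing L] [Algebra C₀ L] [IsLocalization (nonZeroDivisors C₀) L]
  (sec : C₀ →+* C₁) (hsec : ∀ c, sp (sec c) = c)

include sp hsec in
lemma abs_exists_iota_rho : ∃ (ι : L →+* O) (ρ : O →+* L), (∀ l, ρ (ι l) = l) ∧
    (∀ c : C₁, ρ (algebraMap C₁ O c) = algebraMap C₀ L (sp c)) ∧
    ∀ c : C₀, ι (algebraMap C₀ L c) = algebraMap C₁ O (sec c) := by
  have h1 : ∀ y : nonZeroDivisors C₀, IsUnit (((algebraMap C₁ O).comp sec) y) := by
    intro y
    exact IsLocalization.map_units (M := (nonZeroDivisors C₀).comap sp) O ⟨sec y, by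
      rw [Submonoid.mem_comap, hsec]
      exact y.2⟩
  have h2 : ∀ y : (nonZeroDivisors C₀).comap sp, IsUnit (((algebraMap C₀ L).comp sp) y) := by
    intro y
    exact IsLocalization.map_units (M := nonZeroDivisors C₀) L ⟨sp y, y.2⟩
  let ι : L →+* O := IsLocalization.lift (M := nonZeroDivisors C₀) h1
  let ρ : O →+* L := IsLocalization.lift (M := (nonZeroDivisors C₀).comap sp) h2
  have hρ : ∀ c : C₁, ρ (algebraMap C₁ O c) = algebraMap C₀ L (sp c) := fun c =>
    IsLocalization.lift_eq h2 c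
  have hι : ∀ c : C₀, ι (algebraMap C₀ L c) = algebraMap C₁ O (sec c) := fun c =>
    IsLocalization.lift_eq h1 c
  refine ⟨ι, ρ, ?_, hρ, hι⟩
  intro l
  have : ρ.comp ι = RingHom.id L := by
    apply IsLocalization.ringHom_ext (nonZeroDivisors C₀)
    apply RingHom.ext
    intro y
    change ρ (ι (algebraMap C₀ L y)) = algebraMap C₀ L y
    rw [hι, hρ, hsec]
  exact congrArg (fun f : L →+* L => f l) this

end abs

section

variable {R A k : Type*} [CommRing R] [CommRing A] [CommRing k] {g : R →+* A}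
  (β : A →+* k) {g' : R →+* k} (H : β.comp g = g') {t : ℕ}
  (I : Ideal (MvPolynomial (Fin (t + 1)) R))

lemma map_mk (P : MvPolynomial (Fin t) A) :
    Chart.map β H I (Ideal.Quotient.mk _ P) = Ideal.Quotient.mk _ (MvPolynomial.map β P) := rfl

lemma fibreLocal_facts [IsDomain (Chart g' I)] :
    IsLocalRing (FibreLocal β H I) ∧
    (∀ c : Chart g I, IsUnit (algebraMap (Chart g I) (FibreLocal β H I) c) ↔
      Chart.map β H I c ≠ 0) ∧
    ∀ a, β a = 0 → ¬ IsUnit (FibreLocal.base β H I a) := by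
  obtain ⟨h1, h2⟩ := abs_isUnit_iff_and_local (O := FibreLocal β H I) (Chart.map β H I)
  refine ⟨h1, h2, ?_⟩
  intro a ha
  have h3 := h2 (Ideal.Quotient.mk _ (C a))
  intro h4
  apply h3.mp h4
  rw [map_mk, map_C, ha, C_0, map_zero]

end

section section2

variable {k A : Type*} [Field k] [CommRing A] [Algebra k A] (β : A →+* k)
  (h₂ : β.comp (algebraMap k A) = RingHom.id k) {s : ℕ}
  (J : Ideal (MvPolynomial (Fin (s + 1)) k))

lemma exists_iota_rho : ∃ (ι : FractionRing (Chart (RingHom.id k) J) →+* FibreLocal β h₂ J)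
    (ρ : FibreLocal β h₂ J →+* FractionRing (Chart (RingHom.id k) J)), (∀ l, ρ (ι l) = l) ∧
    (∀ a : A, ρ (FibreLocal.base β h₂ J a) =
      algebraMap k (FractionRing (Chart (RingHom.id k) J)) (β a)) ∧
    ∀ c : k, ι (algebraMap k (FractionRing (Chart (RingHom.id k) J)) c) =
      FibreLocal.base β h₂ J (algebraMap k A c) := by
  have hsec : ∀ c, Chart.map β h₂ J (Chart.map (algebraMap k A) (RingHom.comp_id _) J c) = c := by
    intro c
    obtain ⟨P, rfl⟩ := Ideal.Quotient.mk_surjective c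
    rw [map_mk, map_mk, MvPolynomial.map_map, h₂, MvPolynomial.map_id]
  obtain ⟨ι, ρ, h1, h3, h4⟩ := abs_exists_iota_rho (O := FibreLocal β h₂ J)
    (L := FractionRing (Chart (RingHom.id k) J)) (Chart.map β h₂ J)
    (Chart.map (algebraMap k A) (RingHom.comp_id _) J) hsec
  have hL : ∀ c : k, algebraMap k (FractionRing (Chart (RingHom.id k) J)) c =
      algebraMap (Chart (RingHom.id k) J) (FractionRing (Chart (RingHom.id k) J))
        (Ideal.Quotient.mk _ (C c)) := fun c => by
    rw [IsScalarTower.algebraMap_apply k (Chart (RingHom.id k) J)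
      (FractionRing (Chart (RingHom.id k) J))]
    rfl
  refine ⟨ι, ρ, h1, ?_, ?_⟩
  · intro a
    rw [hL]
    have := h3 (Ideal.Quotient.mk _ (C a))
    rw [map_mk, map_C] at this
    exact this
  · intro c
    rw [hL, h4, map_mk, map_C]
    rfl

end section2

end Pool.Agent.V1154.Bir
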