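import Pool.Agent.V1154.Bir.Core
import Pool.Agent.V1154.Bir.Loc

/-!
The family has no birational trivialization at zero.
-/

open MvPolynomial

universe u

namespace Pool.Agent.V1154.Bir

lemma indep0 {k : Type*} [Field k] {a b : Polynomial k}
    (h : smallPhi (0 : k) ∣ Polynomial.eval₂ C (X 1) a + Polynomial.eval₂ C (X 1) b * X 0) :
    a = 0 ∧ b = 0 := by
  have hX0 : finSuccEquiv k 2 (X 0) = Polynomial.X := finSuccEquiv_X_zero
  have hX1 : finSuccEquiv k 2 (X 1) = Polynomial.C (X 0) := finSuccEquiv_X_succ (j := 0)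
  have hev : ∀ p : Polynomial k, finSuccEquiv k 2 (Polynomial.eval₂ C (X 1) p) =
      Polynomial.C (Polynomial.eval₂ C (X 0) p) := by
    intro p
    have h1 := Polynomial.hom_eval₂ p (C : k →+* MvPolynomial (Fin 3) k)
      (finSuccEquiv k 2 : MvPolynomial (Fin 3) k →+* Polynomial (MvPolynomial (Fin 2) k)) (X 1)
    have h2 := Polynomial.hom_eval₂ p (C : k →+* MvPolynomial (Fin 2) k)
      (Polynomial.C : MvPolynomial (Fin 2) k →+* _) (X 0)
    rw [h2]
    refine h1.trans ?_
    have h3 : (finSuccEquiv k 2 : MvPolynomial (Fin 3) k →+*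
        Polynomial (MvPolynomial (Fin 2) k)).comp (C : k →+* MvPolynomial (Fin 3) k) =
        (Polynomial.C : MvPolynomial (Fin 2) k →+* _).comp C := by
      apply RingHom.ext
      intro c
      simp [finSuccEquiv_apply]
    rw [h3]
    congr 1
  have h1 : (Polynomial.X ^ 2 - Polynomial.C (gSmall (0 : k))) ∣
      Polynomial.C (Polynomial.eval₂ C (X 0) a) +
      Polynomial.C (Polynomial.eval₂ C (X 0) b) * Polynomial.X := by
    obtain ⟨c, hc⟩ := h
    refine ⟨finSuccEquiv k 2 c, ?_⟩
    rw [← fse_small, ← map_mul, ← hc, map_add, map_mul, hev, hev, hX0]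
  have h0 : (Polynomial.C (Polynomial.eval₂ C (X 0) a) +
      Polynomial.C (Polynomial.eval₂ C (X 0) b) * Polynomial.X :
      Polynomial (MvPolynomial (Fin 2) k)) = 0 := by
    by_contra hne
    refine (Polynomial.monic_X_pow_sub_C (gSmall (0 : k)) two_ne_zero).not_dvd_of_natDegree_lt
      hne ?_ h1
    rw [Polynomial.natDegree_X_pow_sub_C]
    have : (Polynomial.C (Polynomial.eval₂ C (X 0) a) +
      Polynomial.C (Polynomial.eval₂ C (X 0) b) * Polynomial.X :
      Polynomial (MvPolynomial (Fin 2) k)).natDegree ≤ 1 := by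
      compute_degree
    omega
  have c0 := congrArg (fun f => Polynomial.coeff f 0) h0
  have c1 := congrArg (fun f => Polynomial.coeff f 1) h0
  simp only [Polynomial.coeff_add, Polynomial.coeff_C_mul, Polynomial.coeff_X_zero, mul_zero,
    add_zero, Polynomial.coeff_C_zero, Polynomial.coeff_zero, Polynomial.coeff_X_one, mul_one,
    Polynomial.coeff_C_succ, zero_add] at c0 c1
  have hinj : ∀ p : Polynomial k,
      Polynomial.eval₂ C (X 0 : MvPolynomial (Fin 2) k) p = 0 → p = 0 := by
    intro p hp
    have h3 := congrArg (eval₂Hom (Polynomial.C : k →+* Polynomial k) fun _ => Polynomial.X) hp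
    rw [Polynomial.hom_eval₂, map_zero, eval₂Hom_X'] at h3
    have h4 : (eval₂Hom (Polynomial.C : k →+* Polynomial k)
        fun _ : Fin 2 => (Polynomial.X : Polynomial k)).comp C = Polynomial.C := by
      apply RingHom.ext
      intro c
      simp
    rw [h4, Polynomial.eval₂_C_X] at h3
    exact h3
  exact ⟨hinj a c0, hinj b c1⟩

section

variable {k : Type u} [Field k] {A : Type u} [CommRing A] [IsDomain A]
  [Algebra (Polynomial k) A] (β : A →+* k)
  (h₁ : β.comp (algebraMap (Polynomial k) A) = Polynomial.evalRingHom 0)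
  {K F : Type*} [Field K] [Algebra A K] [Field F] [Algebra K F] {x y : F}

lemma isDomain_fibre (h2 : (2 : k) ≠ 0) :
    IsDomain (Chart (Polynomial.evalRingHom (0 : k)) (fam k)) := by
  have hprime : ((fam k).map (dehom (Polynomial.evalRingHom (0 : k)) 3)).IsPrime := by
    rw [map_fam, Ideal.span_singleton_prime (prime_small h2 _).ne_zero]
    exact prime_small h2 _
  exact (Ideal.Quotient.isDomain_iff_prime _).mpr hprime

lemma exists_theta (h2 : (2 : k) ≠ 0) (h2A : (2 : A) ≠ 0)
    (hAK : Function.Injective (algebraMap A K))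
    (hu : algebraMap (Polynomial k) A Polynomial.X ≠ 0)
    (hx : ∀ p : Polynomial K, Polynomial.aeval x p = 0 → p = 0)
    (hxy : y ^ 2 = x ^ 3 + x) :
    ∃ Θ : FibreLocal β h₁ (fam k) →+* RatFunc F, ∀ P : MvPolynomial (Fin 3) A,
      Θ (algebraMap (Chart (algebraMap (Polynomial k) A) (fam k)) (FibreLocal β h₁ (fam k))
        (Ideal.Quotient.mk _ P)) =
      paramHom (K := K) (algebraMap (Polynomial k) A Polynomial.X) x y P := by
  have hI := map_fam (k := k) (algebraMap (Polynomial k) A)
  have huK : algebraMap A K (algebraMap (Polynomial k) A Polynomial.X) ≠ 0 :=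
    (map_ne_zero_iff _ hAK).mpr hu
  have hlift : ∀ a ∈ (fam k).map (dehom (algebraMap (Polynomial k) A) 3),
      paramHom (K := K) (algebraMap (Polynomial k) A Polynomial.X) x y a = 0 := by
    intro a ha
    rw [hI, Ideal.mem_span_singleton] at ha
    obtain ⟨c, rfl⟩ := ha
    rw [map_mul, paramHom_phi huK hxy, zero_mul]
  let Θ₀ : Chart (algebraMap (Polynomial k) A) (fam k) →+* RatFunc F :=
    Ideal.Quotient.lift _ _ hlift
  have hΘ₀ : ∀ P, Θ₀ (Ideal.Quotient.mk _ P) =
    paramHom (K := K) (algebraMap (Polynomial k) A Polynomial.X) x y P := fun P => rfl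
  have hinj : ∀ c, Θ₀ c = 0 → c = 0 := by
    intro c hc
    obtain ⟨P, rfl⟩ := Ideal.Quotient.mk_surjective c
    rw [Ideal.Quotient.eq_zero_iff_mem, hI, Ideal.mem_span_singleton]
    exact param_kernel h2A hAK hu hx hxy hc
  have hdom := isDomain_fibre (k := k) h2
  have hunit : ∀ s : (nonZeroDivisors (Chart (Polynomial.evalRingHom (0 : k)) (fam k))).comap
      (Chart.map β h₁ (fam k)), IsUnit (Θ₀ s) := by
    rintro ⟨s, hs⟩
    rw [isUnit_iff_ne_zero]
    intro h0
    have h3 := hinj s h0
    rw [Submonoid.mem_comap, h3, map_zero] at hs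
    exact nonZeroDivisors.ne_zero hs rfl
  exact ⟨IsLocalization.lift (M := (nonZeroDivisors
    (Chart (Polynomial.evalRingHom (0 : k)) (fam k))).comap (Chart.map β h₁ (fam k))) hunit,
    fun P => (IsLocalization.lift_eq hunit _).trans (hΘ₀ P)⟩

end

section final

variable {k : Type u} [Field k]

lemma alg_frac {A : Type u} [CommRing A] [IsDomain A] [Algebra (Polynomial k) A]
    (f : Polynomial k) [Algebra (Localization.Away f) A]
    [IsScalarTower (Polynomial k) (Localization.Away f) A]
    [Module.Finite (Localization.Away f) A] (a : FractionRing A) :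
    ∃ P : Polynomial (Polynomial k), P ≠ 0 ∧ Polynomial.aeval a P = 0 := by
  have h1 : Algebra.IsAlgebraic (Polynomial k) (Localization.Away f) :=
    IsLocalization.isAlgebraic (Localization.Away f) (Submonoid.powers f)
  have h3 : Algebra.IsIntegral (Localization.Away f) A := inferInstance
  have h4 : Algebra.IsAlgebraic (Polynomial k) A :=
    Algebra.IsAlgebraic.trans_isIntegral (Polynomial k) (Localization.Away f) A
  have h5 : Algebra.IsAlgebraic A (FractionRing A) :=
    IsLocalization.isAlgebraic (FractionRing A) (nonZeroDivisors A)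
  have h6 : Algebra.IsAlgebraic (Polynomial k) (FractionRing A) :=
    Algebra.IsAlgebraic.trans (Polynomial k) A (FractionRing A)
  exact h6.isAlgebraic a

theorem no_triv_aux [IsAlgClosed k] (h2 : (2 : k) ≠ 0) {s : ℕ}
    (J : Ideal (MvPolynomial (Fin (s + 1)) k)) (b : k)
    (hJ : Nonempty (ProjFunctionField J ≃ₐ[k]
      FractionRing (Chart (Polynomial.evalRingHom b) (fam k))))
    (f : Polynomial k) {A : Type u} [CommRing A] [IsDomain A]
    [Algebra k A] [Algebra (Polynomial k) A] [IsScalarTower k (Polynomial k) A]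
    [Algebra (Localization.Away f) A] [IsScalarTower (Polynomial k) (Localization.Away f) A]
    [Module.Finite (Localization.Away f) A]
    (hinj : Function.Injective (algebraMap (Polynomial k) A))
    (β : A →+* k) (h₁ : β.comp (algebraMap (Polynomial k) A) = Polynomial.evalRingHom 0)
    (h₂ : β.comp (algebraMap k A) = RingHom.id k)
    (e : FibreLocal β h₁ (fam k) ≃+* FibreLocal β h₂ J)
    (he : ∀ a : A, e (FibreLocal.base β h₁ (fam k) a) = FibreLocal.base β h₂ J a) : False := by
  obtain ⟨F, _, _, x, y, hE⟩ : ∃ (F : Type u) (_ : Field F) (_ : Algebra (FractionRing A) F)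
    (x y : F), EllData (FractionRing A) F x y :=
    ⟨FE (FractionRing A), inferInstance, inferInstance, _, _, ellData_FE (FractionRing A)⟩
  obtain ⟨F₂, _, _, x₂, y₂, hE₂⟩ : ∃ (F₂ : Type u) (_ : Field F₂) (_ : Algebra k F₂)
    (x y : F₂), EllData k F₂ x y := ⟨FE k, inferInstance, inferInstance, _, _, ellData_FE k⟩
  obtain ⟨e₁⟩ := hJ
  obtain ⟨e₂⟩ := fibre_iso_all hE₂ h2 b
  let θ : ProjFunctionField J ≃ₐ[k] RatFunc F₂ := e₁.trans e₂
  have hAK : Function.Injective (algebraMap A (FractionRing A)) := IsFractionRing.injective _ _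
  have hu : algebraMap (Polynomial k) A Polynomial.X ≠ 0 :=
    (map_ne_zero_iff _ hinj).mpr Polynomial.X_ne_zero
  have h2A : (2 : A) ≠ 0 := by
    have := (map_ne_zero_iff (algebraMap (Polynomial k) A) hinj).mpr (two_poly k h2)
    rwa [map_ofNat] at this
  have h2F : (2 : F) ≠ 0 := by
    have h3 := (map_ne_zero_iff _ hAK).mpr h2A
    rw [map_ofNat] at h3
    have h4 := (_root_.map_ne_zero (algebraMap (FractionRing A) F)).mpr h3
    rwa [map_ofNat] at h4
  obtain ⟨Θ, hΘ⟩ := exists_theta β h₁ h2 h2A hAK hu (fun p => hE.transc) hE.sq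
  have hdom := isDomain_fibre (k := k) h2
  obtain ⟨hloc, hunit, hbase⟩ := fibreLocal_facts β h₁ (fam k)
  obtain ⟨ι, ρ, hρι, hρb, hιb⟩ := exists_iota_rho β h₂ J
  -- the structure map
  let bk : Polynomial k →+* FibreLocal β h₁ (fam k) :=
    (FibreLocal.base β h₁ (fam k)).comp (algebraMap (Polynomial k) A)
  let mkO : MvPolynomial (Fin 3) A →+* FibreLocal β h₁ (fam k) :=
    (algebraMap (Chart (algebraMap (Polynomial k) A) (fam k)) (FibreLocal β h₁ (fam k))).comp
      (Ideal.Quotient.mk _)
  have hbk : ∀ g, bk g = mkO (C (algebraMap (Polynomial k) A g)) := fun g => rfl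
  have hΘ' : ∀ P, Θ (mkO P) =
    paramHom (K := FractionRing A) (algebraMap (Polynomial k) A Polynomial.X) x y P := hΘ
  have hrel0 : mkO (smallPhi (algebraMap (Polynomial k) A Polynomial.X)) = 0 := by
    have h3 : (Ideal.Quotient.mk ((fam k).map (dehom (algebraMap (Polynomial k) A) 3)))
        (smallPhi (algebraMap (Polynomial k) A Polynomial.X)) = 0 := by
      rw [Ideal.Quotient.eq_zero_iff_mem, map_fam]
      exact Ideal.mem_span_singleton_self _
    exact (congrArg (algebraMap (Chart (algebraMap (Polynomial k) A) (fam k))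
      (FibreLocal β h₁ (fam k))) h3).trans (map_zero _)
  have hu' : (RatFunc.C (algebraMap (FractionRing A) F (algebraMap A (FractionRing A)
      (algebraMap (Polynomial k) A Polynomial.X))) : RatFunc F) ≠ 0 :=
    (map_ne_zero_iff _ RatFunc.C_injective).mpr ((_root_.map_ne_zero _).mpr
      ((map_ne_zero_iff _ hAK).mpr hu))
  have hβ : ∀ g : Polynomial k, β (algebraMap (Polynomial k) A g) = g.eval 0 := fun g =>
    congrArg (fun φ : Polynomial k →+* k => φ g) h₁
  have hβ' : ∀ c : k, β (algebraMap k A c) = c := fun c =>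
    congrArg (fun φ : k →+* k => φ c) h₂
  have hAc : ∀ c : k, algebraMap k A c = algebraMap (Polynomial k) A (Polynomial.C c) := by
    intro c
    rw [IsScalarTower.algebraMap_apply k (Polynomial k) A]
    rfl
  refine core (O := FibreLocal β h₁ (fam k)) h2 hE hE₂ h2F bk Θ ?_ ?_ (mkO (X 0)) (mkO (X 1))
    (mkO (X 2)) ?_ ?_ ?_ ?_ (alg_frac f) ?_
    ((θ : ProjFunctionField J →+* RatFunc F₂).comp (ρ.comp (e : _ →+* _)))
    (((e.symm : _ →+* _).comp ι).comp (θ.symm : RatFunc F₂ →+* ProjFunctionField J)) ?_ ?_ ?_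
  · intro g
    rw [hbk, hΘ', paramHom, eval₂Hom_C]
    rfl
  · intro g hg
    exact hbase _ ((hβ g).trans hg)
  · rw [hbk, ← map_pow, ← map_pow, ← map_mul, ← map_sub, ← map_pow, ← map_add, ← sub_eq_zero,
      ← map_sub, ← hrel0]
    congr 1
    unfold smallPhi
    ring
  · rw [hbk, ← map_pow, ← map_mul, ← map_sub, hΘ', paramHom]
    simp only [map_sub, map_mul, map_pow, eval₂Hom_X', eval₂Hom_C, RingHom.comp_apply,
      Matrix.cons_val_one, Matrix.cons_val]
    rw [mul_div_cancel₀ _ hu']
    ring
  · rw [hΘ', paramHom, eval₂Hom_X']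
    rfl
  · intro a b hab
    have h3 : ∀ p : Polynomial k, Polynomial.eval₂ (bk.comp Polynomial.C) (mkO (X 1)) p =
        mkO (Polynomial.eval₂ (C.comp (algebraMap k A)) (X 1) p) := by
      intro p
      rw [Polynomial.hom_eval₂]
      congr 1
      apply RingHom.ext
      intro c
      change bk (Polynomial.C c) = mkO (C (algebraMap k A c))
      rw [hbk, hAc]
    rw [h3, h3, ← map_mul, ← map_add] at hab
    have h4 : Chart.map β h₁ (fam k) (Ideal.Quotient.mk _
        (Polynomial.eval₂ (C.comp (algebraMap k A)) (X 1) a +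
        Polynomial.eval₂ (C.comp (algebraMap k A)) (X 1) b * X 0)) = 0 := by
      by_contra hne
      exact hab ((hunit _).mpr hne)
    rw [map_mk, Ideal.Quotient.eq_zero_iff_mem, map_fam, Ideal.mem_span_singleton] at h4
    have h5 : ∀ p : Polynomial k, MvPolynomial.map β
        (Polynomial.eval₂ (C.comp (algebraMap k A)) (X 1) p) =
        Polynomial.eval₂ C (X 1 : MvPolynomial (Fin 3) k) p := by
      intro p
      rw [Polynomial.hom_eval₂, map_X]
      congr 1
      apply RingHom.ext
      intro c
      change MvPolynomial.map β (C (algebraMap k A c)) = C c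
      rw [map_C, hβ']
    rw [map_add, map_mul, h5, h5, map_X, Polynomial.coe_evalRingHom, Polynomial.eval_X] at h4
    exact indep0 h4
  · exact (map_ne_zero_iff _ hAK).mpr hu
  · intro m
    change θ (ρ (e (e.symm (ι (θ.symm m))))) = m
    rw [RingEquiv.apply_symm_apply, hρι, AlgEquiv.apply_symm_apply]
  · intro g
    change θ (ρ (e (FibreLocal.base β h₁ (fam k) (algebraMap (Polynomial k) A g)))) = _
    rw [he, hρb, hβ, AlgEquiv.commutes, algebraMap_ME]
  · intro c
    change e.symm (ι (θ.symm (RatFunc.C (algebraMap k F₂ c)))) = _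
    rw [← algebraMap_ME, AlgEquiv.commutes, hιb, ← he, RingEquiv.symm_apply_apply, hAc]
    rfl

theorem no_triv [IsAlgClosed k] (h2 : (2 : k) ≠ 0) {s : ℕ}
    (J : Ideal (MvPolynomial (Fin (s + 1)) k)) (b : k)
    (hJ : Nonempty (ProjFunctionField J ≃ₐ[k]
      FractionRing (Chart (Polynomial.evalRingHom b) (fam k)))) :
    ¬ HasTrivialization (fam k) J 0 := by
  rintro ⟨c, β, h, e, he⟩
  let _ : Algebra (Polynomial k) c.A := c.str.toAlgebra
  let _ : Algebra k c.A := (c.str.comp Polynomial.C).toAlgebra
  have _ : IsScalarTower k (Polynomial k) c.A := IsScalarTower.of_algebraMap_eq' rfl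
  have _ : IsScalarTower (Polynomial k) (Localization.Away c.f) c.A :=
    IsScalarTower.of_algebraMap_eq' rfl
  have hf : c.f ≠ 0 := by
    intro h0
    have h1 : IsUnit (algebraMap (Polynomial k) (Localization.Away c.f) c.f) :=
      IsLocalization.map_units (M := Submonoid.powers c.f) (Localization.Away c.f)
        ⟨c.f, Submonoid.mem_powers _⟩
    have e0 : algebraMap (Polynomial k) (Localization.Away c.f) c.f = 0 :=
      (congrArg (algebraMap (Polynomial k) (Localization.Away c.f)) h0).trans (map_zero _)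
    rw [e0] at h1
    have h3 := h1.map (algebraMap (Localization.Away c.f) c.A)
    rw [map_zero] at h3
    exact not_isUnit_zero h3
  have hinj : Function.Injective (algebraMap (Polynomial k) c.A) := by
    have h1 : Function.Injective (algebraMap (Polynomial k) (Localization.Away c.f)) :=
      IsLocalization.injective (Localization.Away c.f) (M := Submonoid.powers c.f)
        (powers_le_nonZeroDivisors_of_noZeroDivisors hf)
    exact c.injective.comp h1
  exact no_triv_aux h2 J b hJ c.f hinj β h (comp_C h) e he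

end final

end Pool.Agent.V1154.Bir
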