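import Mathlib

/-!
Quadratic polynomials `Y ^ 2 - g` and `a Y ^ 2 - g` over a domain.
-/

open Polynomial

namespace Pool.Agent.V1154.Bir

section sq

variable {K : Type*} [Field K]

lemma rootMult_simple {p : K[X]} (hp : p ≠ 0) {x : K} (h1 : p.IsRoot x)
    (h2 : ¬ (derivative p).IsRoot x) : p.rootMultiplicity x = 1 := by
  have h3 : 0 < p.rootMultiplicity x := (rootMultiplicity_pos hp).mpr h1
  have h4 : ¬ 1 < p.rootMultiplicity x := by
    rw [one_lt_rootMultiplicity_iff_isRoot hp]
    exact fun h => h2 h.2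
  omega

lemma sq_aux0 {p : K[X]} {x : K} (h1 : p.IsRoot x) (h2 : ¬ (derivative p).IsRoot x)
    {r s : K[X]} (h : p * r ^ 2 = s ^ 2) : r = 0 := by
  by_contra hr
  have hp : p ≠ 0 := by
    rintro rfl
    exact h2 (by simp)
  have hs : s ≠ 0 := by
    rintro rfl
    have : p * r ^ 2 ≠ 0 := mul_ne_zero hp (pow_ne_zero 2 hr)
    exact this (by rw [h]; ring)
  have h3 := congrArg (rootMultiplicity x) h
  rw [rootMultiplicity_mul (mul_ne_zero hp (pow_ne_zero 2 hr)), rootMult_simple hp h1 h2,
    pow_two, pow_two, rootMultiplicity_mul (mul_ne_zero hr hr),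
    rootMultiplicity_mul (mul_ne_zero hs hs)] at h3
  omega

/-- `(T ^ 2 - a) ^ 3 + (T ^ 2 - a) m ^ 4` is not a square. -/
lemma sq_aux [IsAlgClosed K] (h2 : (2 : K) ≠ 0) {i a m : K} (hi : i ^ 2 = -1) (hm : m ≠ 0)
    (ha : a + i * m ^ 2 ≠ 0) {r s : K[X]}
    (h : ((X ^ 2 - C a) ^ 3 + (X ^ 2 - C a) * C m ^ 4) * r ^ 2 = s ^ 2) : r = 0 := by
  obtain ⟨z, hz⟩ := IsAlgClosed.exists_pow_nat_eq (a + i * m ^ 2) (n := 2) two_pos
  have hz0 : z ≠ 0 := by
    rintro rfl
    exact ha (by rw [← hz]; ring)
  have hi4 : i ^ 4 = 1 := by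
    have : i ^ 4 = (i ^ 2) ^ 2 := by ring
    rw [this, hi]
    ring
  refine sq_aux0 (x := z) ?_ ?_ h
  · rw [IsRoot.def]
    simp only [eval_add, eval_pow, eval_sub, eval_X, eval_C, eval_mul, hz]
    linear_combination (i * m ^ 6) * hi
  · rw [IsRoot.def]
    have e : derivative ((X ^ 2 - C a) ^ 3 + (X ^ 2 - C a) * C m ^ 4 : K[X]) =
        (3 * (X ^ 2 - C a) ^ 2 + C m ^ 4) * (2 * X) := by
      simp only [derivative_add, derivative_mul, derivative_pow, derivative_sub, derivative_X,
        derivative_C]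
      push_cast
      simp only [map_ofNat]
      ring
    rw [e]
    simp only [eval_mul, eval_add, eval_pow, eval_sub, eval_X, eval_C, eval_ofNat, hz]
    have e2 : 3 * (a + i * m ^ 2 - a) ^ 2 + m ^ 4 = (-2) * m ^ 4 := by
      linear_combination (3 * m ^ 4) * hi
    rw [e2]
    exact mul_ne_zero (mul_ne_zero (neg_ne_zero.mpr h2) (pow_ne_zero 4 hm)) (mul_ne_zero h2 hz0)

end sq

section quad

variable {B : Type*} [CommRing B] [IsDomain B]

lemma irred_frac {a g : B} (ha : a ≠ 0) (hg : ∀ r s : B, g * a * r ^ 2 = s ^ 2 → r = 0) :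
    Irreducible ((C a * X ^ 2 - C g : B[X]).map (algebraMap B (FractionRing B))) := by
  have hinj := IsFractionRing.injective B (FractionRing B)
  have ha' : algebraMap B (FractionRing B) a ≠ 0 := (map_ne_zero_iff _ hinj).mpr ha
  simp only [Polynomial.map_sub, Polynomial.map_mul, Polynomial.map_C, Polynomial.map_pow,
    Polynomial.map_X]
  have hdeg : (C (algebraMap B (FractionRing B) a) * X ^ 2 -
      C (algebraMap B (FractionRing B) g)).natDegree = 2 := by
    compute_degree!
  apply irreducible_of_degree_le_three_of_not_isRoot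
  · rw [hdeg]
    decide
  · intro x hx
    rw [IsRoot.def] at hx
    simp only [eval_sub, eval_mul, eval_C, eval_pow, eval_X] at hx
    obtain ⟨s, r, hr, rfl⟩ := IsFractionRing.div_surjective (A := B) x
    have hr0 : r ≠ 0 := nonZeroDivisors.ne_zero hr
    have hr' : algebraMap B (FractionRing B) r ≠ 0 := (map_ne_zero_iff _ hinj).mpr hr0
    apply hr0
    apply hg r (a * s)
    apply hinj
    field_simp at hx
    simp only [map_mul, map_pow]
    linear_combination -(algebraMap B (FractionRing B) a) * hx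

/-- `X ^ 2 - g` generates a prime ideal when `g` is not a square. -/
lemma prime_monic {g : B} (hg : ∀ r s : B, g * r ^ 2 = s ^ 2 → r = 0) :
    Prime (X ^ 2 - C g : B[X]) := by
  have hm : (X ^ 2 - C g : B[X]).Monic := monic_X_pow_sub_C g two_ne_zero
  have hirr := irred_frac (a := (1 : B)) (g := g) one_ne_zero (by simpa using hg)
  simp only [map_one, one_mul] at hirr
  have hp := hirr.prime
  refine ⟨hm.ne_zero, ?_, ?_⟩
  · intro hu
    exact hp.not_isUnit (hu.map (mapRingHom (algebraMap B (FractionRing B))))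
  · intro p q hpq
    have h3 : (X ^ 2 - C g : B[X]).map (algebraMap B (FractionRing B)) ∣
        p.map (algebraMap B (FractionRing B)) * q.map (algebraMap B (FractionRing B)) := by
      rw [← Polynomial.map_mul]
      exact Polynomial.map_dvd _ hpq
    rcases hp.dvd_or_dvd h3 with h4 | h4
    · exact Or.inl ((Polynomial.map_dvd_map _ (IsFractionRing.injective B _) hm).mp h4)
    · exact Or.inr ((Polynomial.map_dvd_map _ (IsFractionRing.injective B _) hm).mp h4)

lemma prime_prim [UniqueFactorizationMonoid B] {a g : B} (ha : a ≠ 0)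
    (hag : ∀ d : B, d ∣ a → d ∣ g → IsUnit d)
    (hg : ∀ r s : B, g * a * r ^ 2 = s ^ 2 → r = 0) :
    Prime (C a * X ^ 2 - C g : B[X]) := by
  have hprim : (C a * X ^ 2 - C g : B[X]).IsPrimitive := by
    intro d hd
    rw [C_dvd_iff_dvd_coeff] at hd
    apply hag
    · have := hd 2
      simpa [coeff_C] using this
    · have := hd 0
      simpa using this
  have hirr := hprim.irreducible_of_irreducible_map_of_injective
    (IsFractionRing.injective B (FractionRing B)) (irred_frac ha hg)
  exact hirr.prime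

end quad

end Pool.Agent.V1154.Bir
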