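import Pool.Agent.V1154.Bir.Quad

/-!
The polynomial `y ^ 2 h ^ 4 - (z ^ 2 - u w h) ^ 3 - (z ^ 2 - u w h) h ^ 4` and its
dehomogenization are prime.
-/

open MvPolynomial

namespace Pool.Agent.V1154.Bir

/-- The homogeneous polynomial, the variables are `y, z, w, h`. -/
noncomputable def bigPhi {R : Type*} [CommRing R] (u : R) : MvPolynomial (Fin 4) R :=
  X 0 ^ 2 * X 3 ^ 4 - (X 1 ^ 2 - C u * X 2 * X 3) ^ 3 -
    (X 1 ^ 2 - C u * X 2 * X 3) * X 3 ^ 4

/-- Its dehomogenization `h = 1`. -/
noncomputable def smallPhi {R : Type*} [CommRing R] (u : R) : MvPolynomial (Fin 3) R :=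
  X 0 ^ 2 - (X 1 ^ 2 - C u * X 2) ^ 3 - (X 1 ^ 2 - C u * X 2)

section

variable {R : Type*} [CommRing R]

/-- The right hand side. -/
noncomputable def gSmall (u : R) : MvPolynomial (Fin 2) R :=
  (X 0 ^ 2 - C u * X 1) ^ 3 + (X 0 ^ 2 - C u * X 1)

/-- The right hand side. -/
noncomputable def gBig (u : R) : MvPolynomial (Fin 3) R :=
  (X 0 ^ 2 - C u * X 1 * X 2) ^ 3 + (X 0 ^ 2 - C u * X 1 * X 2) * X 2 ^ 4

lemma fse_small (u : R) : finSuccEquiv R 2 (smallPhi u) =
    Polynomial.X ^ 2 - Polynomial.C (gSmall u) := by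
  have h1 : (1 : Fin 3) = Fin.succ 0 := rfl
  have h2 : (2 : Fin 3) = Fin.succ 1 := rfl
  unfold smallPhi gSmall
  simp only [map_sub, map_mul, map_pow, h1, h2, map_add, MvPolynomial.finSuccEquiv_apply, eval₂Hom_C, RingHom.comp_apply]
  simp only [eval₂Hom_X', Fin.cases_zero, Fin.cases_succ]
  ring

lemma fse_big (u : R) : finSuccEquiv R 3 (bigPhi u) =
    Polynomial.C (X 2 ^ 4) * Polynomial.X ^ 2 - Polynomial.C (gBig u) := by
  have h1 : (1 : Fin 4) = Fin.succ 0 := rfl
  have h2 : (2 : Fin 4) = Fin.succ 1 := rfl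
  have h3 : (3 : Fin 4) = Fin.succ 2 := rfl
  unfold bigPhi gBig
  simp only [map_sub, map_mul, map_pow, h1, h2, h3, map_add, MvPolynomial.finSuccEquiv_apply, eval₂Hom_C, RingHom.comp_apply]
  simp only [eval₂Hom_X', Fin.cases_zero, Fin.cases_succ]
  ring

variable [IsDomain R]

lemma two_closure (h2 : (2 : R) ≠ 0) : (2 : AlgebraicClosure (FractionRing R)) ≠ 0 := by
  have hinj : Function.Injective (algebraMap R (AlgebraicClosure (FractionRing R))) := by
    rw [IsScalarTower.algebraMap_eq R (FractionRing R) (AlgebraicClosure (FractionRing R))]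
    exact (algebraMap (FractionRing R) (AlgebraicClosure (FractionRing R))).injective.comp
      (IsFractionRing.injective R (FractionRing R))
  have := (map_ne_zero_iff _ hinj).mpr h2
  rwa [map_ofNat] at this

lemma inj_closure : Function.Injective (algebraMap R (AlgebraicClosure (FractionRing R))) := by
  rw [IsScalarTower.algebraMap_eq R (FractionRing R) (AlgebraicClosure (FractionRing R))]
  exact (algebraMap (FractionRing R) (AlgebraicClosure (FractionRing R))).injective.comp
    (IsFractionRing.injective R (FractionRing R))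

lemma exists_point {n : ℕ} {K : Type*} [Field K] [IsAlgClosed K] {d : MvPolynomial (Fin n) K}
    (hd : d ≠ 0) : ∃ p : Fin n → K, eval p d ≠ 0 := by
  by_contra hcon
  push Not at hcon
  have : Infinite K := inferInstance
  exact hd (MvPolynomial.funext fun p => by rw [hcon p, map_zero])

lemma gSmall_nonsq (h2 : (2 : R) ≠ 0) (u : R) (r s : MvPolynomial (Fin 2) R)
    (h : gSmall u * r ^ 2 = s ^ 2) : r = 0 := by
  by_contra hr
  set K := AlgebraicClosure (FractionRing R) with hK
  have hinj : Function.Injective (algebraMap R K) := inj_closure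
  obtain ⟨i, hi⟩ := IsAlgClosed.exists_pow_nat_eq (-1 : K) (n := 2) two_pos
  have hi0 : i ≠ 0 := by
    rintro rfl
    simp at hi
  have hrK : map (algebraMap R K) r ≠ 0 :=
    (map_ne_zero_iff _ (MvPolynomial.map_injective _ hinj)).mpr hr
  have hd : (C (algebraMap R K u) * X 1 + C i : MvPolynomial (Fin 2) K) ≠ 0 := by
    intro h0
    have := congrArg (eval (fun _ => (0 : K))) h0
    simp at this
    exact hi0 this
  obtain ⟨p, hp⟩ := exists_point (mul_ne_zero hrK hd)
  rw [map_mul] at hp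
  have hp1 := left_ne_zero_of_mul hp
  have hp2 := right_ne_zero_of_mul hp
  let ψ : MvPolynomial (Fin 2) R →+* Polynomial K :=
    eval₂Hom (Polynomial.C.comp (algebraMap R K)) ![Polynomial.X, Polynomial.C (p 1)]
  have hev : (Polynomial.evalRingHom (p 0)).comp ψ = (eval p).comp (map (algebraMap R K)) := by
    apply MvPolynomial.ringHom_ext
    · intro a
      simp [ψ]
    · intro j
      fin_cases j <;> simp [ψ]
  have hψr : ψ r ≠ 0 := by
    intro h0
    have := congrArg (fun f : MvPolynomial (Fin 2) R →+* K => f r) hev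
    simp only [RingHom.comp_apply, h0, map_zero] at this
    exact hp1 this.symm
  apply hψr
  refine sq_aux (two_closure h2) hi (m := 1) (a := algebraMap R K u * p 1) one_ne_zero
    ?_ (s := ψ s) (r := ψ r) ?_
  · simpa using hp2
  · rw [← map_pow ψ s, ← h, map_mul ψ, map_pow ψ]
    congr 1
    simp [gSmall, ψ]

lemma gBig_nonsq (h2 : (2 : R) ≠ 0) (u : R) (r s : MvPolynomial (Fin 3) R)
    (h : gBig u * X 2 ^ 4 * r ^ 2 = s ^ 2) : r = 0 := by
  by_contra hr
  set K := AlgebraicClosure (FractionRing R) with hK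
  have hinj : Function.Injective (algebraMap R K) := inj_closure
  obtain ⟨i, hi⟩ := IsAlgClosed.exists_pow_nat_eq (-1 : K) (n := 2) two_pos
  have hi0 : i ≠ 0 := by
    rintro rfl
    simp at hi
  have hrK : map (algebraMap R K) r ≠ 0 :=
    (map_ne_zero_iff _ (MvPolynomial.map_injective _ hinj)).mpr hr
  have hd : (C (algebraMap R K u) * X 1 * X 2 + C i * X 2 ^ 2 : MvPolynomial (Fin 3) K) ≠ 0 := by
    intro h0
    have := congrArg (eval ![(0 : K), 0, 1]) h0
    simp at this
    exact hi0 this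
  have hX2 : (X 2 : MvPolynomial (Fin 3) K) ≠ 0 := X_ne_zero 2
  obtain ⟨p, hp⟩ := exists_point (mul_ne_zero (mul_ne_zero hrK hd) hX2)
  rw [map_mul, map_mul] at hp
  have hp3 : p 2 ≠ 0 := by simpa using right_ne_zero_of_mul hp
  have hp1 := left_ne_zero_of_mul (left_ne_zero_of_mul hp)
  have hp2 := right_ne_zero_of_mul (left_ne_zero_of_mul hp)
  let ψ : MvPolynomial (Fin 3) R →+* Polynomial K :=
    eval₂Hom (Polynomial.C.comp (algebraMap R K))
      ![Polynomial.X, Polynomial.C (p 1), Polynomial.C (p 2)]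
  have hev : (Polynomial.evalRingHom (p 0)).comp ψ = (eval p).comp (map (algebraMap R K)) := by
    apply MvPolynomial.ringHom_ext
    · intro a
      simp [ψ]
    · intro j
      fin_cases j <;> simp [ψ]
  have hψr : ψ r ≠ 0 := by
    intro h0
    have := congrArg (fun f : MvPolynomial (Fin 3) R →+* K => f r) hev
    simp only [RingHom.comp_apply, h0, map_zero] at this
    exact hp1 this.symm
  have hm : Polynomial.C (p 2) ^ 2 ≠ 0 :=
    pow_ne_zero 2 (Polynomial.C_ne_zero.mpr hp3)
  have key : Polynomial.C (p 2) ^ 2 * ψ r = 0 := by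
    refine sq_aux (two_closure h2) hi (m := p 2) (a := algebraMap R K u * p 1 * p 2) hp3
      ?_ (s := ψ s) ?_
    · simpa using hp2
    · rw [← map_pow ψ s, ← h, map_mul ψ, map_pow ψ, map_mul ψ, map_pow ψ]
      simp [gBig, ψ]
      ring
  rcases mul_eq_zero.mp key with h3 | h3
  · exact hm h3
  · exact hψr h3

lemma prime_small (h2 : (2 : R) ≠ 0) (u : R) : Prime (smallPhi u) := by
  rw [← MulEquiv.prime_iff (finSuccEquiv R 2).toRingEquiv.toMulEquiv]
  change Prime (finSuccEquiv R 2 (smallPhi u))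
  rw [fse_small]
  exact prime_monic (gSmall_nonsq h2 u)

lemma prime_big [UniqueFactorizationMonoid R] (h2 : (2 : R) ≠ 0) (u : R) : Prime (bigPhi u) := by
  rw [← MulEquiv.prime_iff (finSuccEquiv R 3).toRingEquiv.toMulEquiv]
  change Prime (finSuccEquiv R 3 (bigPhi u))
  rw [fse_big]
  have hX : Prime (X 2 : MvPolynomial (Fin 3) R) := MvPolynomial.X_prime
  refine prime_prim (pow_ne_zero 4 (X_ne_zero 2)) ?_ (gBig_nonsq h2 u)
  intro d hd hdg
  obtain ⟨j, -, hj⟩ := (dvd_prime_pow hX 4).mp hd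
  rcases Nat.eq_zero_or_pos j with rfl | hj0
  · rw [pow_zero] at hj
    exact hj.symm.isUnit isUnit_one
  · exfalso
    have h3 : (X 2 : MvPolynomial (Fin 3) R) ∣ gBig u :=
      ((dvd_pow_self _ hj0.ne').trans hj.symm.dvd).trans hdg
    obtain ⟨c, hc⟩ := h3
    have := congrArg (eval ![(1 : R), 0, 0]) hc
    simp [gBig] at this

end

end Pool.Agent.V1154.Bir
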