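import Pool.Agent.V1154.Bir.Fam

/-!
A Gauss type lemma: the residues of the elements of the function field of the constant curve lie in
the function field of the curve over the residue field.
-/

open Polynomial

namespace Pool.Agent.V1154.Bir

variable {k K F M κ : Type*} [Field k] [Field K] [Field F] [Field M] [Field κ]
  [Algebra (Polynomial k) K] [Algebra K F]

/-- A valuation ring of `M` over the point zero of the affine line. -/
structure ValData (ι : F →+* M) (W : ValuationSubring M) (r : W →+* κ) (j : k →+* κ) : Prop where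
  loc : ∀ w : W, r w ≠ 0 → IsUnit w
  alg : ∀ a : K, ∃ P : Polynomial (Polynomial k), P ≠ 0 ∧ aeval a P = 0
  ne : algebraMap (Polynomial k) K X ≠ 0
  mem : ∀ g : Polynomial k, ι (algebraMap K F (algebraMap (Polynomial k) K g)) ∈ W
  res : ∀ g : Polynomial k, r ⟨_, mem g⟩ = j (g.eval 0)

namespace ValData

variable {ι : F →+* M} {W : ValuationSubring M} {r : W →+* κ} {j : k →+* κ}

lemma const [IsAlgClosed k] (hV : ValData (K := K) ι W r j) (a : K)
    (ha : ι (algebraMap K F a) ∈ W) : ∃ c : k, r ⟨_, ha⟩ = j c := by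
  obtain ⟨P, hP0, hP⟩ := hV.alg a
  have hnu : ¬ IsUnit (C X : Polynomial (Polynomial k)) := by
    rw [isUnit_C]
    exact not_isUnit_X
  have hfin : FiniteMultiplicity (C X : Polynomial (Polynomial k)) P :=
    FiniteMultiplicity.of_not_isUnit hnu hP0
  obtain ⟨P', hPP', hnd⟩ := hfin.exists_eq_pow_mul_and_not_dvd
  have hP' : aeval a P' = 0 := by
    rw [hPP', map_mul, map_pow, aeval_C] at hP
    rcases mul_eq_zero.mp hP with h | h
    · exact absurd h (pow_ne_zero _ hV.ne)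
    · exact h
  let ρ : Polynomial k →+* W :=
    ((ι.comp (algebraMap K F)).comp (algebraMap (Polynomial k) K)).codRestrict W hV.mem
  have hρ : W.subtype.comp ρ = (ι.comp (algebraMap K F)).comp (algebraMap (Polynomial k) K) := by
    ext x <;> rfl
  have h1 : eval₂ ρ (⟨_, ha⟩ : W) P' = 0 := by
    apply Subtype.ext
    have e1 := Polynomial.hom_eval₂ P' ρ W.subtype (⟨_, ha⟩ : W)
    have e2 : eval₂ ((ι.comp (algebraMap K F)).comp (algebraMap (Polynomial k) K))
        (ι (algebraMap K F a)) P' = 0 := by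
      have e3 := Polynomial.hom_eval₂ P' (algebraMap (Polynomial k) K) (ι.comp (algebraMap K F)) a
      rw [aeval_def] at hP'
      rw [hP', map_zero] at e3
      exact e3.symm
    rw [hρ] at e1
    exact e1.trans e2
  have hrρ : r.comp ρ = j.comp (evalRingHom 0) := by
    ext x
    · exact hV.res _
    · exact hV.res _
  have h2 : eval₂ j (r ⟨_, ha⟩) (P'.map (evalRingHom 0)) = 0 := by
    rw [eval₂_map, ← hrρ, ← Polynomial.hom_eval₂, h1, map_zero]
  have h3 : P'.map (evalRingHom (0 : k)) ≠ 0 := by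
    intro h0
    apply hnd
    rw [C_dvd_iff_dvd_coeff]
    intro i
    have := congrArg (fun f => coeff f i) h0
    simp only [coeff_map, coeff_zero, coe_evalRingHom] at this
    rw [X_dvd_iff, coeff_zero_eq_eval_zero]
    exact this
  let _ : Algebra k κ := j.toAlgebra
  obtain ⟨c, hc⟩ := algclosed_const h3 (show aeval (r ⟨_, ha⟩) _ = 0 from h2)
  exact ⟨c, hc.symm⟩

lemma gauss [IsAlgClosed k] (hV : ValData (K := K) ι W r j) {T : Type*} (S : Finset T) (c : T → K)
    (hc : ∃ i ∈ S, c i ≠ 0) (e : T → M) (he : ∀ i, e i ∈ W) :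
    ∃ s : K, s ≠ 0 ∧ ∃ d : T → k, (∃ i ∈ S, d i ≠ 0) ∧
      ∃ h : ι (algebraMap K F s) * ∑ i ∈ S, ι (algebraMap K F (c i)) * e i ∈ W,
        r ⟨_, h⟩ = ∑ i ∈ S, j (d i) * r ⟨e i, he i⟩ := by
  classical
  obtain ⟨i1, hi1, hci1⟩ := hc
  obtain ⟨i0, hi0, hmax⟩ := Finset.exists_max_image S
    (fun i => W.valuation (ι (algebraMap K F (c i)))) ⟨i1, hi1⟩
  have hinj : Function.Injective (ι.comp (algebraMap K F)) := RingHom.injective _
  have hne : ∀ i, c i ≠ 0 → ι (algebraMap K F (c i)) ≠ 0 := fun i hi =>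
    (map_ne_zero_iff (ι.comp (algebraMap K F)) hinj).mpr hi
  have hc0 : c i0 ≠ 0 := by
    intro h0
    have h1 := hmax i1 hi1
    simp only [h0, map_zero] at h1
    have h2 : W.valuation (ι (algebraMap K F (c i1))) = 0 := le_antisymm h1 zero_le
    rw [map_eq_zero] at h2
    exact hne i1 hci1 h2
  have hmem : ∀ i ∈ S, ι (algebraMap K F ((c i0)⁻¹ * c i)) ∈ W := by
    intro i hi
    rw [← ValuationSubring.valuation_le_one_iff, map_mul, map_mul, map_mul, map_inv₀, map_inv₀,
      map_inv₀, ← div_eq_inv_mul]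
    exact (div_le_one₀ (zero_lt_iff.mpr ((_root_.map_ne_zero _).mpr (hne i0 hc0)))).mpr (hmax i hi)
  have hex : ∀ i, ∃ dd : k, ∀ hi : i ∈ S, r ⟨_, hmem i hi⟩ = j dd := by
    intro i
    by_cases hi : i ∈ S
    · obtain ⟨dd, hdd⟩ := hV.const _ (hmem i hi)
      exact ⟨dd, fun _ => hdd⟩
    · exact ⟨0, fun h => absurd h hi⟩
  choose d hd using hex
  refine ⟨(c i0)⁻¹, inv_ne_zero hc0, d, ⟨i0, hi0, ?_⟩, ?_⟩
  · intro h0
    have h1 := hd i0 hi0
    have h2 : (⟨_, hmem i0 hi0⟩ : W) = 1 := by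
      apply Subtype.ext
      change ι (algebraMap K F ((c i0)⁻¹ * c i0)) = 1
      rw [inv_mul_cancel₀ hc0, map_one, map_one]
    rw [h2, map_one, h0, map_zero] at h1
    exact one_ne_zero h1
  · have hsum : ι (algebraMap K F (c i0)⁻¹) * ∑ i ∈ S, ι (algebraMap K F (c i)) * e i =
        ((∑ i ∈ S.attach, (⟨_, hmem i.1 i.2⟩ : W) * ⟨e i.1, he i.1⟩ : W) : M) := by
      rw [Finset.mul_sum, ← Finset.sum_attach]
      rw [show ((∑ i ∈ S.attach, (⟨_, hmem i.1 i.2⟩ : W) * ⟨e i.1, he i.1⟩ : W) : M) =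
        W.subtype (∑ i ∈ S.attach, (⟨_, hmem i.1 i.2⟩ : W) * ⟨e i.1, he i.1⟩) from rfl, map_sum]
      apply Finset.sum_congr rfl
      intro i _
      rw [map_mul]
      change _ = ι (algebraMap K F ((c i0)⁻¹ * c i.1)) * e i.1
      rw [map_mul, map_mul, mul_assoc]
    have hmemsum : ι (algebraMap K F (c i0)⁻¹) * ∑ i ∈ S, ι (algebraMap K F (c i)) * e i ∈ W := by
      rw [hsum]
      exact Subtype.property _
    refine ⟨hmemsum, ?_⟩
    have h3 : (⟨_, hmemsum⟩ : W) =
        ∑ i ∈ S.attach, (⟨_, hmem i.1 i.2⟩ : W) * ⟨e i.1, he i.1⟩ := Subtype.ext hsum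
    rw [h3, map_sum, ← Finset.sum_attach S]
    apply Finset.sum_congr rfl
    intro i _
    rw [map_mul, hd i.1 i.2]

/-- For a nonzero pair `(p, q)` a multiple of `p(x) + q(x) y` is a unit of `W` with residue in the
subfield generated by the residues of `x` and `y`. -/
lemma pair [IsAlgClosed k] (hV : ValData (K := K) ι W r j) {x y : F} (hx : ι x ∈ W)
    (hy : ι y ∈ W) (hind : ∀ p q : Polynomial k, eval₂ j (r ⟨_, hx⟩) p +
      eval₂ j (r ⟨_, hx⟩) q * r ⟨_, hy⟩ = 0 → p = 0 ∧ q = 0)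
    (S : Subfield κ) (hS : ∀ c, j c ∈ S) (hxS : r ⟨_, hx⟩ ∈ S) (hyS : r ⟨_, hy⟩ ∈ S)
    (p q : Polynomial K) (hpq : ¬ (p = 0 ∧ q = 0)) :
    ∃ s : K, s ≠ 0 ∧ ∃ h : ι (algebraMap K F s) * ι (aeval x p + aeval x q * y) ∈ W,
      r ⟨_, h⟩ ≠ 0 ∧ r ⟨_, h⟩ ∈ S := by
  classical
  set N := max p.natDegree q.natDegree + 1 with hN
  let T : Finset (ℕ × Bool) := Finset.range N ×ˢ Finset.univ
  let c : ℕ × Bool → K := fun i => if i.2 then q.coeff i.1 else p.coeff i.1
  let e : ℕ × Bool → M := fun i => if i.2 then ι x ^ i.1 * ι y else ι x ^ i.1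
  have he : ∀ i, e i ∈ W := by
    rintro ⟨n, b⟩
    cases b
    · exact pow_mem hx n
    · exact mul_mem (pow_mem hx n) hy
  have hre : ∀ n, r ⟨e (n, false), he (n, false)⟩ = r ⟨_, hx⟩ ^ n := by
    intro n
    rw [← map_pow]
    rfl
  have hre' : ∀ n, r ⟨e (n, true), he (n, true)⟩ = r ⟨_, hx⟩ ^ n * r ⟨_, hy⟩ := by
    intro n
    rw [← map_pow, ← map_mul]
    rfl
  have hc : ∃ i ∈ T, c i ≠ 0 := by
    by_contra hcon
    push Not at hcon
    apply hpq
    constructor
    · by_contra hp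
      have := hcon (p.natDegree, false) (by
        simp only [T, Finset.mem_product, Finset.mem_range, Finset.mem_univ, and_true]
        omega)
      simp only [c, Bool.false_eq_true, if_false, coeff_natDegree, leadingCoeff_eq_zero] at this
      exact hp this
    · by_contra hq
      have := hcon (q.natDegree, true) (by
        simp only [T, Finset.mem_product, Finset.mem_range, Finset.mem_univ, and_true]
        omega)
      simp only [c, if_true, coeff_natDegree, leadingCoeff_eq_zero] at this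
      exact hq this
  obtain ⟨s, hs, d, ⟨⟨n0, b0⟩, hi0, hd0⟩, h, hr⟩ := hV.gauss T c hc e he
  have hsum : ∑ i ∈ T, ι (algebraMap K F (c i)) * e i = ι (aeval x p + aeval x q * y) := by
    rw [aeval_eq_sum_range' (n := N) (by omega), aeval_eq_sum_range' (n := N) (by omega),
      Finset.sum_mul, ← Finset.sum_add_distrib, map_sum]
    simp only [T, Finset.sum_product, Fintype.sum_bool]
    apply Finset.sum_congr rfl
    intro n _
    simp only [c, e, if_true, Bool.false_eq_true, if_false, map_add, map_mul, Algebra.smul_def,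
      map_pow]
    ring
  have hsumr : ∑ i ∈ T, j (d i) * r ⟨e i, he i⟩ =
      eval₂ j (r ⟨_, hx⟩) (∑ n ∈ Finset.range N, C (d (n, false)) * X ^ n) +
      eval₂ j (r ⟨_, hx⟩) (∑ n ∈ Finset.range N, C (d (n, true)) * X ^ n) * r ⟨_, hy⟩ := by
    simp only [T, Finset.sum_product, Fintype.sum_bool, hre, hre', eval₂_finsetSum, eval₂_mul,
      eval₂_C, eval₂_X_pow, Finset.sum_mul]
    rw [← Finset.sum_add_distrib]
    apply Finset.sum_congr rfl
    intro n _
    ring
  rw [hsum] at h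
  have hr' : r ⟨_, h⟩ = ∑ i ∈ T, j (d i) * r ⟨e i, he i⟩ := by
    rw [← hr]
    congr 1
    apply Subtype.ext
    change ι (algebraMap K F s) * ι (aeval x p + aeval x q * y) = _ * _
    rw [hsum]
  refine ⟨s, hs, h, ?_, ?_⟩
  · intro h0
    rw [hr', hsumr] at h0
    obtain ⟨h1, h2⟩ := hind _ _ h0
    have hn0 : n0 < N := by
      simpa [T] using hi0
    have hcoeff : ∀ b : Bool, coeff (∑ n ∈ Finset.range N, C (d (n, b)) * X ^ n) n0 =
        d (n0, b) := by
      intro b
      rw [finsetSum_coeff]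
      simp only [coeff_C_mul, coeff_X_pow, mul_ite, mul_one, mul_zero]
      rw [Finset.sum_ite_eq]
      simp [hn0]
    apply hd0
    cases b0
    · rw [← hcoeff, h1, coeff_zero]
    · rw [← hcoeff, h2, coeff_zero]
  · rw [hr', ]
    apply S.sum_mem
    rintro ⟨n, b⟩ _
    apply S.mul_mem (hS _)
    cases b
    · rw [hre]
      exact S.pow_mem hxS n
    · rw [hre']
      exact S.mul_mem (S.pow_mem hxS n) hyS

/-- The residue of an element of the function field of the curve lies in the subfield generated by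
the residues of the coordinates. -/
lemma residue_mem [IsAlgClosed k] (hV : ValData (K := K) ι W r j) {x y : F}
    (hE : EllData K F x y) (hx : ι x ∈ W)
    (hy : ι y ∈ W) (hind : ∀ p q : Polynomial k, eval₂ j (r ⟨_, hx⟩) p +
      eval₂ j (r ⟨_, hx⟩) q * r ⟨_, hy⟩ = 0 → p = 0 ∧ q = 0)
    (S : Subfield κ) (hS : ∀ c, j c ∈ S) (hxS : r ⟨_, hx⟩ ∈ S) (hyS : r ⟨_, hy⟩ ∈ S)
    (f : F) (hf : ι f ∈ W) : r ⟨_, hf⟩ ∈ S := by
  by_cases hf0 : f = 0
  · subst hf0
    have : (⟨ι 0, hf⟩ : W) = 0 := Subtype.ext (map_zero ι)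
    rw [this, map_zero]
    exact S.zero_mem
  obtain ⟨p, q, p', q', hne, hfe⟩ := hE.rep f
  have hpq' : ¬ (p' = 0 ∧ q' = 0) := by
    rintro ⟨rfl, rfl⟩
    exact hne (by simp)
  have hne2 : aeval x p + aeval x q * y ≠ 0 := by
    rw [← hfe]
    exact mul_ne_zero hf0 hne
  have hpq : ¬ (p = 0 ∧ q = 0) := by
    rintro ⟨rfl, rfl⟩
    exact hne2 (by simp)
  obtain ⟨s, hs, h, h0, hmemS⟩ := hV.pair hx hy hind S hS hxS hyS p q hpq
  obtain ⟨s', hs', h', h0', hmemS'⟩ := hV.pair hx hy hind S hS hxS hyS p' q' hpq'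
  set E : W := ⟨_, h⟩ with hEdef
  set E' : W := ⟨_, h'⟩ with hE'def
  obtain ⟨U, hU⟩ := hV.loc E h0
  -- `s' / s` lies in `W`
  have hinj : Function.Injective (ι.comp (algebraMap K F)) := RingHom.injective _
  have hs0 : ι (algebraMap K F s) ≠ 0 := (map_ne_zero_iff (ι.comp (algebraMap K F)) hinj).mpr hs
  have hι2 : ι (aeval x p + aeval x q * y) ≠ 0 := (map_ne_zero_iff ι ι.injective).mpr hne2
  have key : ι (algebraMap K F (s * s'⁻¹)) * ι f * (E' : M) = (E : M) := by
    change ι (algebraMap K F (s * s'⁻¹)) * ι f * (ι (algebraMap K F s') *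
      ι (aeval x p' + aeval x q' * y)) = ι (algebraMap K F s) * ι (aeval x p + aeval x q * y)
    rw [← hfe]
    have hs'0 : ι (algebraMap K F s') ≠ 0 :=
      (map_ne_zero_iff (ι.comp (algebraMap K F)) hinj).mpr hs'
    rw [map_mul (algebraMap K F), map_inv₀, map_mul ι, map_inv₀, map_mul ι f]
    field_simp
  have hUinv : ((U⁻¹ : Wˣ) : W) * E = 1 := by
    rw [← hU]
    exact U.inv_mul
  have hmem : ι (algebraMap K F (s' * s⁻¹)) ∈ W := by
    have e1 : ι (algebraMap K F (s' * s⁻¹)) = ι f * (E' : M) * (((U⁻¹ : Wˣ) : W) : M) := by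
      have e2 : (((U⁻¹ : Wˣ) : W) : M) * (E : M) = 1 := congrArg Subtype.val hUinv
      have hs'0 : ι (algebraMap K F s') ≠ 0 :=
        (map_ne_zero_iff (ι.comp (algebraMap K F)) hinj).mpr hs'
      have e3 : ι (algebraMap K F (s' * s⁻¹)) * ι (algebraMap K F (s * s'⁻¹)) = 1 := by
        rw [← map_mul, ← map_mul]
        have : s' * s⁻¹ * (s * s'⁻¹) = 1 := by field_simp
        rw [this, map_one, map_one]
      calc ι (algebraMap K F (s' * s⁻¹))
          = ι (algebraMap K F (s' * s⁻¹)) * ((((U⁻¹ : Wˣ) : W) : M) * (E : M)) := by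
            rw [e2, mul_one]
        _ = ι (algebraMap K F (s' * s⁻¹)) * ((((U⁻¹ : Wˣ) : W) : M) *
            (ι (algebraMap K F (s * s'⁻¹)) * ι f * (E' : M))) := by rw [key]
        _ = (ι (algebraMap K F (s' * s⁻¹)) * ι (algebraMap K F (s * s'⁻¹))) *
            (ι f * (E' : M) * (((U⁻¹ : Wˣ) : W) : M)) := by ring
        _ = _ := by rw [e3, one_mul]
    rw [e1]
    exact mul_mem (mul_mem hf E'.2) (((U⁻¹ : Wˣ) : W)).2
  obtain ⟨c, hc⟩ := hV.const _ hmem
  have key2 : (⟨_, hf⟩ : W) * E' = ⟨_, hmem⟩ * E := by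
    apply Subtype.ext
    change ι f * (E' : M) = ι (algebraMap K F (s' * s⁻¹)) * (E : M)
    rw [← key]
    have hs'0 : ι (algebraMap K F s') ≠ 0 :=
      (map_ne_zero_iff (ι.comp (algebraMap K F)) hinj).mpr hs'
    rw [map_mul (algebraMap K F), map_inv₀, map_mul ι, map_inv₀, map_mul (algebraMap K F),
      map_inv₀, map_mul ι, map_inv₀]
    field_simp
  have key3 := congrArg r key2
  rw [map_mul, map_mul, hc] at key3
  have : r ⟨_, hf⟩ = j c * r E / r E' := by
    rw [eq_div_iff h0']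
    exact key3
  rw [this]
  exact S.div_mem (S.mul_mem (hS c) hmemS) hmemS'

end ValData

end Pool.Agent.V1154.Bir
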